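import Mathlib

open Finset

namespace Pool.Agent.H29.ZS

/-- The Klein four-group, written additively. -/
abbrev K4 := ZMod 2 × ZMod 2

theorem dbl (a : K4) : a + a = 0 := by revert a; decide

theorem dbl2 (a b : K4) : a + b + a + b = 0 := by revert a b; decide
theorem dbl2' (a b : K4) : a + a + b + b = 0 := by revert a b; decide
theorem dbl2'' (a b : K4) : a + b + b + a = 0 := by revert a b; decide

theorem zdbl (a : ZMod 2) : a + a = 0 := by revert a; decide

section

variable {V X : Type*} [Fintype V] [DecidableEq V]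

/-- quadratic sum of the colouring `c` along `φ`, weighted by `h` -/
def Q (h : V → V → ZMod 2) (c : X → X → K4) (φ : V → X) : K4 :=
  ∑ u, ∑ v, h u v • c (φ u) (φ v)

/-- symmetrised weight -/
def g (h : V → V → ZMod 2) (u v : V) : ZMod 2 := h u v + h v u

/-- second difference of a colouring -/
def box (c : X → X → K4) (x y x' y' : X) : K4 := c x x' + c x y' + c y x' + c y y'

theorem F1 (h : V → V → ZMod 2) (c : X → X → K4) (hc : ∀ x y, c x y = c y x)
    {v w v' w' : V} (h1 : v ≠ w) (h2 : v ≠ v') (h3 : v ≠ w') (h4 : w ≠ v') (h5 : w ≠ w')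
    (h6 : v' ≠ w') {x y x' y' : X} (f00 f10 f01 f11 : V → X)
    (ho : ∀ a, a ≠ v → a ≠ w → a ≠ v' → a ≠ w' → f10 a = f00 a ∧ f01 a = f00 a ∧ f11 a = f00 a)
    (a1 : f00 v = x) (a2 : f10 v = y) (a3 : f01 v = x) (a4 : f11 v = y)
    (b1 : f00 w = y) (b2 : f10 w = x) (b3 : f01 w = y) (b4 : f11 w = x)
    (c1 : f00 v' = x') (c2 : f10 v' = x') (c3 : f01 v' = y') (c4 : f11 v' = y')
    (d1 : f00 w' = y') (d2 : f10 w' = y') (d3 : f01 w' = x') (d4 : f11 w' = x') :
    Q h c f00 + Q h c f10 + Q h c f01 + Q h c f11 =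
      (g h v v' + g h v w' + g h w v' + g h w w') • box c x y x' y' := by
  classical
  let ip : V → ZMod 2 := fun a => (if a = v then 1 else 0) + (if a = w then 1 else 0)
  let iq : V → ZMod 2 := fun a => (if a = v' then 1 else 0) + (if a = w' then 1 else 0)
  have ipv : ip v = 1 := by simp [ip, h1]
  have ipw : ip w = 1 := by simp [ip, h1.symm]
  have ipv' : ip v' = 0 := by simp [ip, h2.symm, h4.symm]
  have ipw' : ip w' = 0 := by simp [ip, h3.symm, h5.symm]
  have iqv : iq v = 0 := by simp [iq, h2, h3]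
  have iqw : iq w = 0 := by simp [iq, h4, h5]
  have iqv' : iq v' = 1 := by simp [iq, h6]
  have iqw' : iq w' = 1 := by simp [iq, h6.symm]
  have ipo : ∀ a, a ≠ v → a ≠ w → ip a = 0 := fun a h1 h2 => by simp [ip, h1, h2]
  have iqo : ∀ a, a ≠ v' → a ≠ w' → iq a = 0 := fun a h1 h2 => by simp [iq, h1, h2]
  have key : ∀ a b, c (f00 a) (f00 b) + c (f10 a) (f10 b) + c (f01 a) (f01 b) +
      c (f11 a) (f11 b) = (ip a * iq b + iq a * ip b) • box c x y x' y' := by
    intro a b
    rcases eq_or_ne a v with ha | ha1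
    · subst ha
      rcases eq_or_ne b a with hb | hb1
      · subst hb
        rw [a1, a2, a3, a4, ipv, iqv]; simp [dbl2]
      rcases eq_or_ne b w with hb | hb2
      · subst hb
        rw [a1, a2, a3, a4, b1, b2, b3, b4, ipv, iqv, ipw, iqw]; simp [dbl2]
      rcases eq_or_ne b v' with hb | hb3
      · subst hb
        rw [a1, a2, a3, a4, c1, c2, c3, c4, ipv, iqv, ipv', iqv']; simp [box]; abel
      rcases eq_or_ne b w' with hb | hb4
      · subst hb
        rw [a1, a2, a3, a4, d1, d2, d3, d4, ipv, iqv, ipw', iqw']; simp [box]; abel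
      obtain ⟨o1, o2, o3⟩ := ho b hb1 hb2 hb3 hb4
      rw [a1, a2, a3, a4, o1, o2, o3, ipv, iqv, ipo b hb1 hb2, iqo b hb3 hb4]; simp [dbl2]
    rcases eq_or_ne a w with ha | ha2
    · subst ha
      rcases eq_or_ne b v with hb | hb1
      · subst hb
        rw [a1, a2, a3, a4, b1, b2, b3, b4, ipv, iqv, ipw, iqw]; simp [dbl2]
      rcases eq_or_ne b a with hb | hb2
      · subst hb
        rw [b1, b2, b3, b4, ipw, iqw]; simp [dbl2]
      rcases eq_or_ne b v' with hb | hb3
      · subst hb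
        rw [b1, b2, b3, b4, c1, c2, c3, c4, ipw, iqw, ipv', iqv']; simp [box]; abel
      rcases eq_or_ne b w' with hb | hb4
      · subst hb
        rw [b1, b2, b3, b4, d1, d2, d3, d4, ipw, iqw, ipw', iqw']; simp [box]; abel
      obtain ⟨o1, o2, o3⟩ := ho b hb1 hb2 hb3 hb4
      rw [b1, b2, b3, b4, o1, o2, o3, ipw, iqw, ipo b hb1 hb2, iqo b hb3 hb4]; simp [dbl2]
    rcases eq_or_ne a v' with ha | ha3
    · subst ha
      rcases eq_or_ne b v with hb | hb1
      · subst hb
        rw [a1, a2, a3, a4, c1, c2, c3, c4, ipv, iqv, ipv', iqv', hc x' x, hc x' y, hc y' x,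
          hc y' y]; simp [box]; abel
      rcases eq_or_ne b w with hb | hb2
      · subst hb
        rw [b1, b2, b3, b4, c1, c2, c3, c4, ipw, iqw, ipv', iqv', hc x' x, hc x' y, hc y' x,
          hc y' y]; simp [box]; abel
      rcases eq_or_ne b a with hb | hb3
      · subst hb
        rw [c1, c2, c3, c4, ipv', iqv']; simp [dbl2']
      rcases eq_or_ne b w' with hb | hb4
      · subst hb
        rw [c1, c2, c3, c4, d1, d2, d3, d4, ipv', iqv', ipw', iqw']; simp [dbl2']
      obtain ⟨o1, o2, o3⟩ := ho b hb1 hb2 hb3 hb4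
      rw [c1, c2, c3, c4, o1, o2, o3, ipv', iqv', ipo b hb1 hb2, iqo b hb3 hb4]; simp [dbl2']
    rcases eq_or_ne a w' with ha | ha4
    · subst ha
      rcases eq_or_ne b v with hb | hb1
      · subst hb
        rw [a1, a2, a3, a4, d1, d2, d3, d4, ipv, iqv, ipw', iqw', hc x' x, hc x' y, hc y' x,
          hc y' y]; simp [box]; abel
      rcases eq_or_ne b w with hb | hb2
      · subst hb
        rw [b1, b2, b3, b4, d1, d2, d3, d4, ipw, iqw, ipw', iqw', hc x' x, hc x' y, hc y' x,
          hc y' y]; simp [box]; abel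
      rcases eq_or_ne b v' with hb | hb3
      · subst hb
        rw [c1, c2, c3, c4, d1, d2, d3, d4, ipv', iqv', ipw', iqw']; simp [dbl2']
      rcases eq_or_ne b a with hb | hb4
      · subst hb
        rw [d1, d2, d3, d4, ipw', iqw']; simp [dbl2']
      obtain ⟨o1, o2, o3⟩ := ho b hb1 hb2 hb3 hb4
      rw [d1, d2, d3, d4, o1, o2, o3, ipw', iqw', ipo b hb1 hb2, iqo b hb3 hb4]; simp [dbl2']
    obtain ⟨q1, q2, q3⟩ := ho a ha1 ha2 ha3 ha4
    rw [q1, q2, q3, ipo a ha1 ha2, iqo a ha3 ha4]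
    rcases eq_or_ne b v with hb | hb1
    · subst hb
      rw [a1, a2, a3, a4]; simp [dbl2]
    rcases eq_or_ne b w with hb | hb2
    · subst hb
      rw [b1, b2, b3, b4]; simp [dbl2]
    rcases eq_or_ne b v' with hb | hb3
    · subst hb
      rw [c1, c2, c3, c4]; simp [dbl2']
    rcases eq_or_ne b w' with hb | hb4
    · subst hb
      rw [d1, d2, d3, d4]; simp [dbl2']
    obtain ⟨o1, o2, o3⟩ := ho b hb1 hb2 hb3 hb4
    rw [o1, o2, o3]; simp [dbl2]
  have hQ : Q h c f00 + Q h c f10 + Q h c f01 + Q h c f11 =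
      ∑ a, ∑ b, h a b • (c (f00 a) (f00 b) + c (f10 a) (f10 b) + c (f01 a) (f01 b) +
        c (f11 a) (f11 b)) := by
    simp only [Q, smul_add, Finset.sum_add_distrib]
  rw [hQ]
  have h2' : ∀ a b, h a b • (c (f00 a) (f00 b) + c (f10 a) (f10 b) + c (f01 a) (f01 b) +
        c (f11 a) (f11 b)) = (h a b * (ip a * iq b + iq a * ip b)) • box c x y x' y' := by
    intro a b
    rw [key, smul_smul]
  simp only [h2', ← Finset.sum_smul]
  congr 1
  simp only [ip, iq, g]
  simp only [mul_add, mul_ite, mul_one, mul_zero, Finset.sum_add_distrib,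
    Finset.sum_ite_eq', Finset.mem_univ, if_true]
  ring

end

end Pool.Agent.H29.ZS
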