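import Pool.Agent.H29.ZS.Ext

open Finset

namespace Pool.Agent.H29.ZS

section

variable {V X : Type*} [Fintype V] [DecidableEq V] [DecidableEq X]

/-- parity of the degree -/
def deg (h : V → V → ZMod 2) (u : V) : ZMod 2 := ∑ v, g h u v

omit [DecidableEq V] [DecidableEq X] in
theorem sum_deg (h : V → V → ZMod 2) : ∑ u, deg h u = 0 := by
  simp only [deg, g, Finset.sum_add_distrib]
  rw [Finset.sum_comm (f := fun u v => h v u)]
  exact zdbl _

omit [DecidableEq X] in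
theorem snd_Q (h : V → V → ZMod 2) (hd : ∀ u, h u u = 0) (hev : ∑ u, ∑ v, h u v = 0)
    (c : X → X → K4) (f : X → ZMod 2) (hf : ∀ x y, x ≠ y → (c x y).2 = f x + f y) (φ : V ↪ X) :
    (Q h c φ).2 = ∑ u, deg h u * f (φ u) := by
  have h1 : (Q h c φ).2 = ∑ u, ∑ v, h u v • (c (φ u) (φ v)).2 := by
    simp only [Q, Prod.snd_sum, Prod.smul_snd]
  rw [h1, trivsum h hd hev f 0 (fun x y => (c x y).2) φ]
  · rfl
  · intro u v huv
    rw [add_zero]
    exact hf _ _ (fun e => huv (φ.injective e))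

omit [DecidableEq X] in
theorem D_swap (h : V → V → ZMod 2) (f : X → ZMod 2) (φ : V → X) {v w : V} (hvw : v ≠ w) :
    ∑ u, deg h u * f (φ (Equiv.swap v w u)) =
      ∑ u, deg h u * f (φ u) + (deg h v + deg h w) * (f (φ v) + f (φ w)) := by
  have h1 : ∑ u, (deg h u * f (φ (Equiv.swap v w u)) + deg h u * f (φ u)) =
      (deg h v + deg h w) * (f (φ v) + f (φ w)) := by
    rw [Finset.sum_eq_add v w hvw]
    · rw [Equiv.swap_apply_left, Equiv.swap_apply_right]; ring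
    · intro a _ ha
      rw [Equiv.swap_apply_of_ne_of_ne ha.1 ha.2]; exact zdbl _
    · intro hh; exact absurd (mem_univ _) hh
    · intro hh; exact absurd (mem_univ _) hh
  rw [Finset.sum_add_distrib] at h1
  rw [← h1]
  have := zdbl (∑ u, deg h u * f (φ u))
  linear_combination -this

omit [DecidableEq X] in
theorem gadget (h : V → V → ZMod 2) (hd : ∀ u, h u u = 0) (hev : ∑ u, ∑ v, h u v = 0)
    (c : X → X → K4) (hc : ∀ x y, c x y = c y x) (f : X → ZMod 2)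
    (hf : ∀ x y, x ≠ y → (c x y).2 = f x + f y)
    (hQ : ∀ φ : V ↪ X, Q h c φ ≠ 0) {v w v' w' : V}
    (h1 : v ≠ w) (h2 : v ≠ v') (h3 : v ≠ w') (h4 : w ≠ v') (h5 : w ≠ w')
    (h6 : v' ≠ w') {x y x' y' : X} (φ : V ↪ X) (k1 : φ v = x) (k2 : φ w = y) (k3 : φ v' = x')
    (k4 : φ w' = y') (hD : ∑ u, deg h u * f (φ u) = 0)
    (hp : (deg h v + deg h w) * (f x + f y) = 0)
    (hq : (deg h v' + deg h w') * (f x' + f y') = 0) :
    beta h v w v' w' • box c x y x' y' = 0 := by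
  set σ := Equiv.swap v w with hσ
  set τ := Equiv.swap v' w' with hτ
  have σv : σ v = w := Equiv.swap_apply_left ..
  have σw : σ w = v := Equiv.swap_apply_right ..
  have σv' : σ v' = v' := Equiv.swap_apply_of_ne_of_ne h2.symm h4.symm
  have σw' : σ w' = w' := Equiv.swap_apply_of_ne_of_ne h3.symm h5.symm
  have τv : τ v = v := Equiv.swap_apply_of_ne_of_ne h2 h3
  have τw : τ w = w := Equiv.swap_apply_of_ne_of_ne h4 h5
  have τv' : τ v' = w' := Equiv.swap_apply_left ..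
  have τw' : τ w' = v' := Equiv.swap_apply_right ..
  have hF := F1 h c hc h1 h2 h3 h4 h5 h6 (x := x) (y := y) (x' := x') (y' := y')
    (fun a => φ a) (fun a => φ (σ a)) (fun a => φ (τ a)) (fun a => φ (σ (τ a)))
    (by
      intro a a1 a2 a3 a4
      have e1 : σ a = a := Equiv.swap_apply_of_ne_of_ne a1 a2
      have e2 : τ a = a := Equiv.swap_apply_of_ne_of_ne a3 a4
      simp [e1, e2])
    (by simp [k1]) (by simp [σv, k2]) (by simp [τv, k1]) (by simp [τv, σv, k2])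
    (by simp [k2]) (by simp [σw, k1]) (by simp [τw, k2]) (by simp [τw, σw, k1])
    (by simp [k3]) (by simp [σv', k3]) (by simp [τv', k4]) (by simp [τv', σw', k4])
    (by simp [k4]) (by simp [σw', k4]) (by simp [τw', k3]) (by simp [τw', σv', k3])
  have val : ∀ ψ : V ↪ X, ∑ u, deg h u * f (ψ u) = 0 → Q h c ψ = (1, 0) := by
    intro ψ hψ
    have e1 := hQ ψ
    have e2 := snd_Q h hd hev c f hf ψ
    rw [hψ] at e2
    generalize Q h c ψ = a at e1 e2
    revert a; decide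
  have D1 : ∑ u, deg h u * f (φ (σ u)) = 0 := by
    rw [D_swap h f φ h1, hD, k1, k2, hp, add_zero]
  have D2 : ∑ u, deg h u * f (φ (τ u)) = 0 := by
    rw [D_swap h f φ h6, hD, k3, k4, hq, add_zero]
  have D3 : ∑ u, deg h u * f (φ (σ (τ u))) = 0 := by
    have := D_swap h f (fun a => φ (σ a)) h6
    rw [this, D1, σv', σw', k3, k4, hq, add_zero]
  have Q0 := val φ hD
  have Q1 := val (σ.toEmbedding.trans φ) D1
  have Q2 := val (τ.toEmbedding.trans φ) D2
  have Q3 := val ((σ * τ : Equiv.Perm V).toEmbedding.trans φ) D3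
  have e : beta h v w v' w' • box c x y x' y' = Q h c (fun a => φ a) + Q h c (fun a => φ (σ a)) +
      Q h c (fun a => φ (τ a)) + Q h c (fun a => φ (σ (τ a))) := hF.symm
  rw [e]
  have Q0' : Q h c (fun a => φ a) = (1, 0) := Q0
  have Q1' : Q h c (fun a => φ (σ a)) = (1, 0) := Q1
  have Q2' : Q h c (fun a => φ (τ a)) = (1, 0) := Q2
  have Q3' : Q h c (fun a => φ (σ (τ a))) = (1, 0) := Q3
  rw [Q0', Q1', Q2', Q3']
  decide

omit [Fintype V] [DecidableEq V] in
theorem g_self (h : V → V → ZMod 2) (u : V) : g h u u = 0 := zdbl _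

omit [Fintype V] [DecidableEq V] in
theorem g_symm (h : V → V → ZMod 2) (u v : V) : g h u v = g h v u := add_comm _ _

/-- placement with vanishing second coordinate -/
theorem placement [Fintype X] (h : V → V → ZMod 2) (f : X → ZMod 2)
    (hfc : (∀ x y, f x = f y) ∨
      (∀ (a : ZMod 2) (x1 x2 x3 x4 : X), ∃ z, f z = a ∧ z ≠ x1 ∧ z ≠ x2 ∧ z ≠ x3 ∧ z ≠ x4))
    (I : Finset V) (hI : ∀ w ∈ I, ∀ v, g h w v = 0) (hI5 : 5 ≤ I.card)
    (hcard : Fintype.card V ≤ Fintype.card X)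
    {u1 u2 u3 u4 : V} (n12 : u1 ≠ u2) (n13 : u1 ≠ u3) (n14 : u1 ≠ u4) (n23 : u2 ≠ u3)
    (n24 : u2 ≠ u4) (n34 : u3 ≠ u4) {x1 x2 x3 x4 : X} (m12 : x1 ≠ x2) (m13 : x1 ≠ x3)
    (m14 : x1 ≠ x4) (m23 : x2 ≠ x3) (m24 : x2 ≠ x4) (m34 : x3 ≠ x4)
    (ho : (∀ u, deg h u = 0) ∨ ∃ o, o ≠ u1 ∧ o ≠ u2 ∧ o ≠ u3 ∧ o ≠ u4 ∧ deg h o = 1) :
    ∃ φ : V ↪ X, φ u1 = x1 ∧ φ u2 = x2 ∧ φ u3 = x3 ∧ φ u4 = x4 ∧
      ∑ u, deg h u * f (φ u) = 0 := by
  have basic : (∀ φ : V ↪ X, ∑ u, deg h u * f (φ u) = 0) →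
      ∃ φ : V ↪ X, φ u1 = x1 ∧ φ u2 = x2 ∧ φ u3 = x3 ∧ φ u4 = x4 ∧
      ∑ u, deg h u * f (φ u) = 0 := by
    intro hz
    obtain ⟨φ, hφ, -⟩ := extendList [(u1, x1), (u2, x2), (u3, x3), (u4, x4)]
      (by simp [*]) (by simp [*]) univ (fun _ _ => mem_univ _)
      (by rw [Finset.card_univ]; exact hcard)
    exact ⟨φ, hφ (u1, x1) (by simp), hφ (u2, x2) (by simp), hφ (u3, x3) (by simp),
      hφ (u4, x4) (by simp), hz φ⟩
  rcases ho with ho | ⟨o, o1, o2, o3, o4, hodd⟩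
  · exact basic (fun φ => by simp [ho])
  rcases hfc with hfc | hf01
  · apply basic
    intro φ
    have : ∀ u, deg h u * f (φ u) = deg h u * f (φ u1) := fun u => by rw [hfc (φ u) (φ u1)]
    simp only [this, ← Finset.sum_mul, sum_deg, zero_mul]
  · have hw : ∃ w ∈ I, w ∉ ({u1, u2, u3, u4} : Finset V) := by
      by_contra hcon
      push Not at hcon
      have h1 := Finset.card_le_card (show I ⊆ ({u1, u2, u3, u4} : Finset V) from hcon)
      have h2 : ({u1, u2, u3, u4} : Finset V).card ≤ 4 := Finset.card_le_four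
      omega
    obtain ⟨w, hwI, hw⟩ := hw
    simp only [Finset.mem_insert, Finset.mem_singleton, not_or] at hw
    obtain ⟨w1, w2, w3, w4⟩ := hw
    have hdw : deg h w = 0 := by simp [deg, hI w hwI]
    have how : o ≠ w := by rintro rfl; rw [hdw] at hodd; exact zero_ne_one hodd
    obtain ⟨z0, hz0, a1, a2, a3, a4⟩ := hf01 0 x1 x2 x3 x4
    obtain ⟨z1, hz1, b1, b2, b3, b4⟩ := hf01 1 x1 x2 x3 x4
    have hzz : z0 ≠ z1 := by rintro rfl; rw [hz0] at hz1; exact zero_ne_one hz1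
    obtain ⟨φ, hφ, -⟩ := extendList [(u1, x1), (u2, x2), (u3, x3), (u4, x4), (o, z0), (w, z1)]
      (by simp [*, Ne.symm o1, Ne.symm o2, Ne.symm o3, Ne.symm o4, Ne.symm w1, Ne.symm w2,
            Ne.symm w3, Ne.symm w4])
      (by simp [*, Ne.symm a1, Ne.symm a2, Ne.symm a3, Ne.symm a4, Ne.symm b1, Ne.symm b2,
            Ne.symm b3, Ne.symm b4])
      univ (fun _ _ => mem_univ _) (by rw [Finset.card_univ]; exact hcard)
    have p1 : φ u1 = x1 := hφ (u1, x1) (by simp)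
    have p2 : φ u2 = x2 := hφ (u2, x2) (by simp)
    have p3 : φ u3 = x3 := hφ (u3, x3) (by simp)
    have p4 : φ u4 = x4 := hφ (u4, x4) (by simp)
    have po : φ o = z0 := hφ (o, z0) (by simp)
    have pw : φ w = z1 := hφ (w, z1) (by simp)
    by_cases hD : ∑ u, deg h u * f (φ u) = 0
    · exact ⟨φ, p1, p2, p3, p4, hD⟩
    · refine ⟨(Equiv.swap o w).toEmbedding.trans φ, ?_, ?_, ?_, ?_, ?_⟩
      · show φ (Equiv.swap o w u1) = x1
        rw [Equiv.swap_apply_of_ne_of_ne o1.symm (Ne.symm w1), p1]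
      · show φ (Equiv.swap o w u2) = x2
        rw [Equiv.swap_apply_of_ne_of_ne o2.symm (Ne.symm w2), p2]
      · show φ (Equiv.swap o w u3) = x3
        rw [Equiv.swap_apply_of_ne_of_ne o3.symm (Ne.symm w3), p3]
      · show φ (Equiv.swap o w u4) = x4
        rw [Equiv.swap_apply_of_ne_of_ne o4.symm (Ne.symm w4), p4]
      · show ∑ u, deg h u * f (φ (Equiv.swap o w u)) = 0
        rw [D_swap h f φ how, hodd, hdw, po, pw, hz0, hz1]
        generalize ∑ u, deg h u * f (φ u) = D at hD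
        revert D; decide

end

end Pool.Agent.H29.ZS
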