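import Pool.Agent.H29.ZS.Core2

open Finset

namespace Pool.Agent.H29.ZS

theorem arith2 (a s q p : ℕ) (h1 : s ≤ 5) (h2 : p ≤ q + 9) (h3 : a + 20500 ≤ p) :
    a + (1024 * (s + 3 * 4 + 3) + 1) ≤ q := by
  linarith

theorem wedge_zero_left (b : K4) : wedge 0 b = 0 := by revert b; decide

theorem wedge_span (a b x : K4) (h : wedge a b ≠ 0) (h1 : wedge x a = 0) (h2 : wedge x b = 0) :
    x = 0 := by revert a b x; decide

section

variable {V X : Type*} [Fintype V] [DecidableEq V] [Fintype X] [DecidableEq X]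

/-- eight distinct vertices from isolated ones and two disjoint edges -/
theorem core1 (h : V → V → ZMod 2) (hd : ∀ u, h u u = 0) (hev : ∑ u, ∑ v, h u v = 0)
    (c : X → X → K4) (hc : ∀ x y, c x y = c y x)
    (I : Finset V) (hI : ∀ w ∈ I, ∀ v, g h w v = 0) (hI5 : 5 ≤ I.card)
    {v1 v2 v3 v4 : V} (n13 : v1 ≠ v3) (n14 : v1 ≠ v4) (n23 : v2 ≠ v3)
    (n24 : v2 ≠ v4) (e12 : g h v1 v2 = 1) (e34 : g h v3 v4 = 1)
    {x1 y1 x2 y2 x3 y3 x4 y4 : X} (D : D8 x1 y1 x2 y2 x3 y3 x4 y4)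
    (hw : wedge (box c x1 y1 x2 y2) (box c x3 y3 x4 y4) ≠ 0)
    (hcard : Fintype.card V + 20500 ≤ Fintype.card X) :
    ∃ φ : V ↪ X, Q h c φ = 0 := by
  by_contra hQ
  push Not at hQ
  have z2 : ∀ a : ZMod 2, a = 0 ∨ a = 1 := by decide
  have hcard' : Fintype.card V ≤ (univ : Finset X).card := by
    rw [Finset.card_univ]; omega
  obtain ⟨w1, w2, w3, w4, m1, m2, m3, m4, w12, w13, w14, w23, w24, w34⟩ :=
    exists_four I (by omega)
  have hnI : ∀ u v, g h u v = 1 → u ∉ I := by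
    intro u v huv hu; rw [hI u hu v] at huv; exact zero_ne_one huv
  have i1 : v1 ∉ I := hnI v1 v2 e12
  have i2 : v2 ∉ I := hnI v2 v1 (by rw [g_symm]; exact e12)
  have i3 : v3 ∉ I := hnI v3 v4 e34
  have i4 : v4 ∉ I := hnI v4 v3 (by rw [g_symm]; exact e34)
  have nIw : ∀ v w, v ∉ I → w ∈ I → v ≠ w := by rintro v w hv hw rfl; exact hv hw
  have n12 : v1 ≠ v2 := by rintro rfl; rw [g_self] at e12; exact zero_ne_one e12
  have n34 : v3 ≠ v4 := by rintro rfl; rw [g_self] at e34; exact zero_ne_one e34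
  have hIr : ∀ w ∈ I, ∀ v, g h v w = 0 := fun w hw v => by rw [g_symm]; exact hI w hw v
  -- general application of the star identity
  have app : ∀ (a1 b1 a2 b2 a3 b3 a4 b4 : V) (p1 q1 p2 q2 p3 q3 p4 q4 : X),
      D8 a1 b1 a2 b2 a3 b3 a4 b4 → D8 p1 q1 p2 q2 p3 q3 p4 q4 →
      beta h a1 b1 a2 b2 * beta h a3 b3 a4 b4 * wedge (box c p1 q1 p2 q2) (box c p3 q3 p4 q4) +
      beta h a1 b1 a3 b3 * beta h a2 b2 a4 b4 * wedge (box c p1 q1 p3 q3) (box c p2 q2 p4 q4) +
      beta h a1 b1 a4 b4 * beta h a2 b2 a3 b3 * wedge (box c p1 q1 p4 q4) (box c p2 q2 p3 q3)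
      = 0 := by
    intro a1 b1 a2 b2 a3 b3 a4 b4 p1 q1 p2 q2 p3 q3 p4 q4 d e
    obtain ⟨φ, hφ, -⟩ := extendList [(a1, p1), (b1, q1), (a2, p2), (b2, q2), (a3, p3), (b3, q3),
      (a4, p4), (b4, q4)]
      (by simp [d.a12, d.a13, d.a14, d.a15, d.a16, d.a17, d.a18, d.a23, d.a24, d.a25, d.a26,
            d.a27, d.a28, d.a34, d.a35, d.a36, d.a37, d.a38, d.a45, d.a46, d.a47, d.a48, d.a56,
            d.a57, d.a58, d.a67, d.a68, d.a78])
      (by simp [e.a12, e.a13, e.a14, e.a15, e.a16, e.a17, e.a18, e.a23, e.a24, e.a25, e.a26,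
            e.a27, e.a28, e.a34, e.a35, e.a36, e.a37, e.a38, e.a45, e.a46, e.a47, e.a48, e.a56,
            e.a57, e.a58, e.a67, e.a68, e.a78]) univ (fun _ _ => mem_univ _) hcard'
    exact star h c hc hQ d φ (hφ (a1, p1) (by simp)) (hφ (b1, q1) (by simp))
      (hφ (a2, p2) (by simp)) (hφ (b2, q2) (by simp)) (hφ (a3, p3) (by simp))
      (hφ (b3, q3) (by simp)) (hφ (a4, p4) (by simp)) (hφ (b4, q4) (by simp))
  have dV : D8 v1 w1 v2 w2 v3 w3 v4 w4 :=
    ⟨nIw _ _ i1 m1, n12, nIw _ _ i1 m2, n13, nIw _ _ i1 m3, n14, nIw _ _ i1 m4,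
      (nIw _ _ i2 m1).symm, w12, (nIw _ _ i3 m1).symm, w13, (nIw _ _ i4 m1).symm, w14,
      nIw _ _ i2 m2, n23, nIw _ _ i2 m3, n24, nIw _ _ i2 m4,
      (nIw _ _ i3 m2).symm, w23, (nIw _ _ i4 m2).symm, w24,
      nIw _ _ i3 m3, n34, nIw _ _ i3 m4, (nIw _ _ i4 m3).symm, w34, nIw _ _ i4 m4⟩
  have b12 : beta h v1 w1 v2 w2 = 1 := by
    simp only [beta, e12, hI w1 m1, hIr w2 m2]; decide
  have b34 : beta h v3 w3 v4 w4 = 1 := by
    simp only [beta, e34, hI w3 m3, hIr w4 m4]; decide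
  -- structure of the colouring
  set P : Finset X := {x1, y1, x2, y2, x3, y3, x4, y4} with hP
  have hPc : P.card ≤ 8 := by
    rw [hP]
    exact (Finset.card_insert_le _ _).trans (Nat.succ_le_succ
      ((Finset.card_insert_le _ _).trans (Nat.succ_le_succ
      ((Finset.card_insert_le _ _).trans (Nat.succ_le_succ
      ((Finset.card_insert_le _ _).trans (Nat.succ_le_succ
      ((Finset.card_insert_le _ _).trans (Nat.succ_le_succ
      ((Finset.card_insert_le _ _).trans (Nat.succ_le_succ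
      Finset.card_le_two)))))))))))
  have hr : ∃ r, r ∉ P := by
    by_contra hcon
    push Not at hcon
    have := Finset.card_le_card (show univ ⊆ P from fun a _ => hcon a)
    rw [Finset.card_univ] at this
    omega
  obtain ⟨r, hrP⟩ := hr
  set X0 : Finset X := univ \ insert r P with hX0
  let tX : X → K4 × K4 × K4 × K4 × K4 := fun x =>
    (c x x1 + c x y1, c x x2 + c x y2, c x x3 + c x y3, c x x4 + c x y4, c x r)
  have hX : ∀ x ∈ X0, ∀ y ∈ X0, tX x = tX y → ∀ z ∈ X0, z ≠ x → z ≠ y → c x z = c y z := by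
    intro x hx y hy ht z hz hzx hzy
    simp only [hX0, Finset.mem_sdiff, Finset.mem_univ, true_and, Finset.mem_insert, hP,
      Finset.mem_singleton, not_or] at hx hy hz
    simp only [hP, Finset.mem_insert, Finset.mem_singleton, not_or] at hrP
    simp only [tX, Prod.mk.injEq] at ht
    obtain ⟨t1, t2, t3, t4, tr⟩ := ht
    obtain ⟨hx0, hx1, hx2, hx3, hx4, hx5, hx6, hx7, hx8⟩ := hx
    obtain ⟨hy0, hy1, hy2, hy3, hy4, hy5, hy6, hy7, hy8⟩ := hy
    obtain ⟨hz0, hz1, hz2, hz3, hz4, hz5, hz6, hz7, hz8⟩ := hz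
    obtain ⟨hr1, hr2, hr3, hr4, hr5, hr6, hr7, hr8⟩ := hrP
    by_cases hxy : x = y
    · rw [hxy]
    have bz : ∀ p q : X, c x p + c x q = c y p + c y q → box c x y p q = 0 := by
      intro p q hpq
      simp only [box]
      rw [hpq, add_assoc]
      exact dbl _
    have A := app v1 w1 v2 w2 v3 w3 v4 w4 x y z r x1 y1 x2 y2 dV
      ⟨hxy, hzx.symm, hx0, hx1, hx2, hx3, hx4, hzy.symm, hy0, hy1, hy2, hy3, hy4,
        hz0, hz1, hz2, hz3, hz4, hr1, hr2, hr3, hr4, D.a12, D.a13, D.a14, D.a23, D.a24, D.a34⟩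
    have B := app v1 w1 v2 w2 v3 w3 v4 w4 x y z r x3 y3 x4 y4 dV
      ⟨hxy, hzx.symm, hx0, hx5, hx6, hx7, hx8, hzy.symm, hy0, hy5, hy6, hy7, hy8,
        hz0, hz5, hz6, hz7, hz8, hr5, hr6, hr7, hr8, D.a56, D.a57, D.a58, D.a67, D.a68, D.a78⟩
    rw [b12, b34, bz _ _ t1, bz _ _ t2, wedge_zero_left, wedge_zero_left] at A
    rw [b12, b34, bz _ _ t3, bz _ _ t4, wedge_zero_left, wedge_zero_left] at B
    simp only [mul_zero, add_zero, one_mul] at A B
    have := wedge_span _ _ _ hw A B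
    simp only [box] at this
    have fin : ∀ p q r s : K4, p + q + r + s = 0 → q = s → p = r := by decide
    exact fin _ _ _ _ this tr
  -- structure of the graph
  let tG : V → ZMod 2 × ZMod 2 := fun u => (g h u v1, g h u v2)
  have hG : ∀ u v, u ∉ ({v1, v2, w1, w2, w3} : Finset V) →
      v ∉ ({v1, v2, w1, w2, w3} : Finset V) → tG u = tG v →
      ∀ z, z ≠ u → z ≠ v → g h u z = g h v z := by
    intro u v hu hv ht z hzu hzv
    simp only [Finset.mem_insert, Finset.mem_singleton, not_or] at hu hv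
    obtain ⟨hu1, hu2, hu3, hu4, hu5⟩ := hu
    obtain ⟨hv1, hv2, hv3, hv4, hv5⟩ := hv
    simp only [tG, Prod.mk.injEq] at ht
    obtain ⟨t1, t2⟩ := ht
    by_cases huv : u = v
    · rw [huv]
    by_cases z1 : z = v1
    · rw [z1]; exact t1
    by_cases z2' : z = v2
    · rw [z2']; exact t2
    by_cases z3 : z = w1
    · rw [z3, hIr w1 m1, hIr w1 m1]
    by_cases z4 : z = w2
    · rw [z4, hIr w2 m2, hIr w2 m2]
    by_cases z5 : z = w3
    · rw [z5, hIr w3 m3, hIr w3 m3]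
    have A := app u v z w3 v1 w1 v2 w2 x1 y1 x2 y2 x3 y3 x4 y4
      ⟨huv, hzu.symm, hu5, hu1, hu3, hu2, hu4, hzv.symm, hv5, hv1, hv3, hv2, hv4,
        z5, z1, z3, z2', z4, (nIw _ _ i1 m3).symm, w13.symm, (nIw _ _ i2 m3).symm, w23.symm,
        nIw _ _ i1 m1, n12, nIw _ _ i1 m2, (nIw _ _ i2 m1).symm, w12, nIw _ _ i2 m2⟩ D
    have c13 : beta h u v v1 w1 = 0 := by
      simp only [beta, hIr w1 m1, t1, add_zero]; exact zdbl _
    have c14 : beta h u v v2 w2 = 0 := by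
      simp only [beta, hIr w2 m2, t2, add_zero]; exact zdbl _
    rw [c13, c14, b12] at A
    simp only [zero_mul, add_zero, mul_one] at A
    have hw1 : wedge (box c x1 y1 x2 y2) (box c x3 y3 x4 y4) = 1 := (z2 _).resolve_left hw
    rw [hw1, mul_one] at A
    simp only [beta, hIr w3 m3, add_zero] at A
    have fin : ∀ p q : ZMod 2, p + q = 0 → p = q := by decide
    exact fin _ _ A
  have hX0c : Fintype.card X ≤ X0.card + 9 := by
    have h1 := Finset.card_le_card_sdiff_add_card (s := (univ : Finset X)) (t := insert r P)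
    have h2 := Finset.card_insert_le r P
    rw [Finset.card_univ, ← hX0] at h1
    omega
  have hSG : ({v1, v2, w1, w2, w3} : Finset V).card ≤ 5 := Finset.card_le_five
  obtain ⟨φ, hφ1, hφ2, hφ3⟩ := LL h hd c hc tG tX {v1, v2, w1, w2, w3} X0 hG hX
    (Fintype.card V) univ (Finset.card_univ) X0 (Finset.Subset.refl _) (by
      have h1 : Fintype.card (K4 × K4 × K4 × K4 × K4) = 1024 := by
        simp [Fintype.card_prod, ZMod.card]
      have h2 : Fintype.card (ZMod 2 × ZMod 2) = 4 := by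
        simp [Fintype.card_prod, ZMod.card]
      rw [h1, h2, Finset.card_univ]
      exact arith2 _ _ _ _ hSG hX0c hcard) hev
  have hinj : Function.Injective φ := by
    intro u v huv
    exact hφ2 (by simp) (by simp) huv
  exact hQ ⟨φ, hinj⟩ hφ3

end

end Pool.Agent.H29.ZS
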