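import Pool.Agent.H29.ZS.Case2

open Finset

namespace Pool.Agent.H29.ZS

section

variable {V X : Type*} [Fintype V] [DecidableEq V] [Fintype X] [DecidableEq X]

theorem arith1 (a s q p : ℕ) (h1 : s ≤ 3) (h2 : p ≤ q + 2) (h3 : a + 1000 ≤ p) :
    a + (32 * (s + 3 * 8 + 3) + 1) ≤ q := by
  linarith

/-- zero-sum copy when all second differences vanish -/
theorem trivial_case (h : V → V → ZMod 2) (hd : ∀ u, h u u = 0) (hev : ∑ u, ∑ v, h u v = 0)
    (c : X → X → K4) (hc : ∀ x y, c x y = c y x) (hcard : Fintype.card V + 4 ≤ Fintype.card X)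
    (hbox : ∀ x y x' y' : X, x ≠ y → x ≠ x' → x ≠ y' → y ≠ x' → y ≠ y' → x' ≠ y' →
      box c x y x' y' = 0) :
    ∃ φ : V ↪ X, Q h c φ = 0 := by
  have hXc : 0 < Fintype.card X := by omega
  obtain ⟨r⟩ : Nonempty X := Fintype.card_pos_iff.1 hXc
  set Y : Finset X := univ.erase r with hY
  have hYc : Y.card + 1 = Fintype.card X := by
    rw [hY, Finset.card_erase_of_mem (mem_univ _), Finset.card_univ]; omega
  let t : X → K4 := fun x => c x r
  let c' : X → X → K4 := fun x y => c x y + t x + t y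
  have hc' : ∀ x y, c' x y = c' y x := by
    intro x y; simp only [c', hc x y]; abel
  have hY' : ∀ x ∈ Y, ∀ y ∈ Y, ∀ z ∈ Y, z ≠ x → z ≠ y → c' x z = c' y z := by
    intro x hx y hy z hz h1 h2
    have hxr : x ≠ r := (Finset.mem_erase.1 hx).1
    have hyr : y ≠ r := (Finset.mem_erase.1 hy).1
    have hzr : z ≠ r := (Finset.mem_erase.1 hz).1
    by_cases hxy : x = y
    · rw [hxy]
    have := hbox x y z r hxy h1.symm hxr h2.symm hyr hzr
    simp only [box] at this
    simp only [c', t]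
    generalize c x z = a at *
    generalize c y z = b at *
    generalize c x r = d at *
    generalize c y r = e at *
    generalize c z r = f at *
    revert a b d e f; decide
  -- the constant
  have hk : ∃ κ, ∀ x ∈ Y, ∀ y ∈ Y, x ≠ y → c x y = t x + t y + κ := by
    have h2 : 1 < Y.card := by omega
    obtain ⟨p, hp, q, hq, hpq⟩ := Finset.one_lt_card.1 h2
    refine ⟨c' p q, fun x hx y hy hxy => ?_⟩
    have := const_class c' hc' Y hY' hx hy hp hq hxy hpq
    rw [← this]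
    simp only [c']
    generalize c x y = a
    generalize t x = b
    generalize t y = d
    revert a b d; decide
  obtain ⟨κ, hκ⟩ := hk
  -- odd vertices
  set O : Finset V := univ.filter (fun u => deg h u = 1) with hO
  have hOeven : ∃ k, O.card = 2 * k := by
    have h1 : (∑ u, deg h u) = (O.card : ZMod 2) := by
      have h0 : ∀ u, deg h u = if deg h u = 1 then 1 else 0 := by
        intro u
        generalize deg h u = a
        revert a; decide
      rw [Finset.sum_congr rfl (fun u _ => h0 u), Finset.sum_boole]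
    rw [sum_deg] at h1
    have h2 := (ZMod.natCast_eq_zero_iff O.card 2).1 h1.symm
    obtain ⟨k, hk⟩ := h2
    exact ⟨k, hk⟩
  obtain ⟨k, hk⟩ := hOeven
  have hOV : O.card ≤ Fintype.card V := Finset.card_le_univ _
  obtain ⟨S, hSY, hSc, hS0⟩ := egz t k Y (by omega)
  obtain ⟨φ, hφ1, hφ2⟩ := extend (fun i : Fin (2 * k) => ((O.equivFinOfCardEq hk).symm i : V))
    (fun i j hij => by simpa using hij)
    (fun i : Fin (2 * k) => ((S.equivFinOfCardEq hSc).symm i : X))
    (fun i j hij => by simpa using hij) Y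
    (fun i => hSY ((S.equivFinOfCardEq hSc).symm i).2) (by omega)
  refine ⟨φ, ?_⟩
  have h1 : Q h c φ = ∑ u, deg h u • t (φ u) := by
    simp only [Q]
    rw [trivsum h hd hev t κ c φ]
    · rfl
    · intro u v huv
      exact hκ _ (hφ2 u) _ (hφ2 v) (fun e => huv (φ.injective e))
  rw [h1]
  have h2 : ∑ u, deg h u • t (φ u) = ∑ u ∈ O, t (φ u) := by
    rw [hO, Finset.sum_filter]
    refine Finset.sum_congr rfl fun u _ => ?_
    generalize deg h u = a
    generalize t (φ u) = b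
    revert a b; decide
  rw [h2, ← hS0]
  have h3 : ∑ u ∈ O, t (φ u) = ∑ i : Fin (2 * k), t (φ ((O.equivFinOfCardEq hk).symm i : V)) := by
    rw [← Finset.sum_coe_sort O (fun u => t (φ u))]
    exact (Equiv.sum_comp (O.equivFinOfCardEq hk).symm (fun u : O => t (φ u))).symm
  have h4 : ∑ y ∈ S, t y = ∑ i : Fin (2 * k), t ((S.equivFinOfCardEq hSc).symm i : X) := by
    rw [← Finset.sum_coe_sort S t]
    exact (Equiv.sum_comp (S.equivFinOfCardEq hSc).symm (fun u : S => t u)).symm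
  rw [h3, h4]
  exact Finset.sum_congr rfl fun i _ => by rw [hφ1 i]

theorem core2 (h : V → V → ZMod 2) (hd : ∀ u, h u u = 0) (hev : ∑ u, ∑ v, h u v = 0)
    (c : X → X → K4) (hc : ∀ x y, c x y = c y x) (f : X → ZMod 2)
    (hf : ∀ x y, x ≠ y → (c x y).2 = f x + f y)
    (hfc : (∀ x y, f x = f y) ∨
      (∀ (a : ZMod 2) (x1 x2 x3 x4 : X), ∃ z, f z = a ∧ z ≠ x1 ∧ z ≠ x2 ∧ z ≠ x3 ∧ z ≠ x4))
    (I : Finset V) (hI : ∀ w ∈ I, ∀ v, g h w v = 0) (hI5 : 5 ≤ I.card)
    {v1 v2 v3 v4 : V} (n13 : v1 ≠ v3) (n14 : v1 ≠ v4) (n23 : v2 ≠ v3)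
    (n24 : v2 ≠ v4) (e12 : g h v1 v2 = 1) (e34 : g h v3 v4 = 1)
    (hcard : Fintype.card V + 1000 ≤ Fintype.card X) :
    ∃ φ : V ↪ X, Q h c φ = 0 := by
  by_contra hQ
  push Not at hQ
  have hIdeg : ∀ w ∈ I, deg h w = 0 := fun w hw => by simp [deg, hI w hw]
  have z2 : ∀ a : ZMod 2, a = 0 ∨ a = 1 := by decide
  -- a good edge
  have hedge : ∃ a b, g h a b = 1 ∧ ((∀ u, deg h u = 0) ∨ ∃ o, o ≠ a ∧ o ≠ b ∧ deg h o = 1) := by
    by_cases h0 : ∀ u, deg h u = 0
    · exact ⟨v1, v2, e12, Or.inl h0⟩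
    push Not at h0
    obtain ⟨o, ho⟩ := h0
    have ho : deg h o = 1 := (z2 _).resolve_left ho
    by_cases h1 : o = v1
    · exact ⟨v3, v4, e34, Or.inr ⟨o, h1 ▸ n13, h1 ▸ n14, ho⟩⟩
    by_cases h2 : o = v2
    · exact ⟨v3, v4, e34, Or.inr ⟨o, h2 ▸ n23, h2 ▸ n24, ho⟩⟩
    exact ⟨v1, v2, e12, Or.inr ⟨o, h1, h2, ho⟩⟩
  obtain ⟨a, b, eab, hab⟩ := hedge
  have nab : a ≠ b := by rintro rfl; rw [g_self] at eab; exact zero_ne_one eab
  have hnI : ∀ u v, g h u v = 1 → u ∉ I := by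
    intro u v huv hu; rw [hI u hu v] at huv; exact zero_ne_one huv
  have haI : a ∉ I := hnI a b eab
  have hbI : b ∉ I := hnI b a (by rw [g_symm]; exact eab)
  obtain ⟨w1, w2, w3, w4, m1, m2, m3, m4, w12, w13, w14, w23, w24, w34⟩ :=
    exists_four I (by omega)
  have hcard' : Fintype.card V ≤ Fintype.card X := by omega
  -- neutral position pairs
  have neutral : ∀ x y x' y' : X, x ≠ y → x ≠ x' → x ≠ y' → y ≠ x' → y ≠ y' → x' ≠ y' →
      f x = f y → f x' = f y' → box c x y x' y' = 0 := by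
    intro x y x' y' k1 k2 k3 k4 k5 k6 hxy hxy'
    have aw1 : a ≠ w1 := fun e => haI (e ▸ m1)
    have aw2 : a ≠ w2 := fun e => haI (e ▸ m2)
    have bw1 : w1 ≠ b := fun e => hbI (e ▸ m1)
    have bw2 : b ≠ w2 := fun e => hbI (e ▸ m2)
    obtain ⟨φ, p1, p2, p3, p4, hD⟩ := placement h f hfc I hI hI5 hcard' aw1 nab aw2 bw1 w12 bw2
      k1 k2 k3 k4 k5 k6 (by
        rcases hab with h0 | ⟨o, o1, o2, o3⟩
        · exact Or.inl h0
        · refine Or.inr ⟨o, o1, ?_, o2, ?_, o3⟩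
          · rintro rfl; rw [hIdeg _ m1] at o3; exact zero_ne_one o3
          · rintro rfl; rw [hIdeg _ m2] at o3; exact zero_ne_one o3)
    have := gadget h hd hev c hc f hf hQ aw1 nab aw2 bw1 w12 bw2 φ p1 p2 p3 p4 hD
      (by rw [hxy, zdbl, mul_zero]) (by rw [hxy', zdbl, mul_zero])
    have hb : beta h a w1 b w2 = 1 := by
      simp only [beta, eab, hI w1 m1, g_symm h a w2, hI w2 m2]; decide
    rw [hb, one_smul] at this
    exact this
  -- some nonzero second difference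
  have hex : ∃ x y x' y' : X, x ≠ y ∧ x ≠ x' ∧ x ≠ y' ∧ y ≠ x' ∧ y ≠ y' ∧ x' ≠ y' ∧
      box c x y x' y' ≠ 0 := by
    by_contra hcon
    push Not at hcon
    obtain ⟨φ, hφ⟩ := trivial_case h hd hev c hc (by omega) hcon
    exact hQ φ hφ
  obtain ⟨x, y, x', y', k1, k2, k3, k4, k5, k6, hbne⟩ := hex
  -- structure of the graph
  have hGs : ∃ o o1 : V, ((∀ u, deg h u = 0) ∧ o = w1 ∧ o1 = w1) ∨
      (o ≠ o1 ∧ deg h o = 1 ∧ deg h o1 = 1) := by
    by_cases h0 : ∀ u, deg h u = 0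
    · exact ⟨w1, w1, Or.inl ⟨h0, rfl, rfl⟩⟩
    push Not at h0
    obtain ⟨o, ho⟩ := h0
    have ho : deg h o = 1 := (z2 _).resolve_left ho
    have : ∃ o1, o1 ≠ o ∧ deg h o1 = 1 := by
      by_contra hcon
      push Not at hcon
      have := sum_deg h
      rw [Finset.sum_eq_single o (fun b _ hb => (z2 _).resolve_right (hcon b hb))
        (fun hh => absurd (mem_univ _) hh), ho] at this
      exact one_ne_zero this
    obtain ⟨o1, h1, h2⟩ := this
    exact ⟨o, o1, Or.inr ⟨h1.symm, ho, h2⟩⟩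
  obtain ⟨o, o1, hoo⟩ := hGs
  have betazero : ∀ u v z z' : V, u ≠ v → u ≠ z → u ≠ z' → v ≠ z → v ≠ z' → z ≠ z' →
      deg h u = deg h v → deg h z = deg h z' →
      ((∀ u, deg h u = 0) ∨ (o ≠ u ∧ o ≠ v ∧ o ≠ z ∧ o ≠ z' ∧ deg h o = 1)) →
      beta h u v z z' = 0 := by
    intro u v z z' q1 q2 q3 q4 q5 q6 duv dz ho
    obtain ⟨φ, p1, p2, p3, p4, hD⟩ := placement h f hfc I hI hI5 hcard' q1 q2 q3 q4 q5 q6
      k1 k2 k3 k4 k5 k6 (by
        rcases ho with h0 | ⟨o1, o2, o3, o4, o5⟩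
        · exact Or.inl h0
        · exact Or.inr ⟨o, o1, o2, o3, o4, o5⟩)
    have := gadget h hd hev c hc f hf hQ q1 q2 q3 q4 q5 q6 φ p1 p2 p3 p4 hD
      (by rw [duv, zdbl, zero_mul]) (by rw [dz, zdbl, zero_mul])
    rcases z2 (beta h u v z z') with hb | hb
    · exact hb
    · rw [hb, one_smul] at this; exact absurd this hbne
  let tG : V → ZMod 2 × ZMod 2 × ZMod 2 := fun u => (deg h u, g h u o, g h u o1)
  have hG : ∀ u v, u ∉ ({o, o1, w1} : Finset V) → v ∉ ({o, o1, w1} : Finset V) → tG u = tG v →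
      ∀ z, z ≠ u → z ≠ v → g h u z = g h v z := by
    intro u v hu hv ht z hzu hzv
    simp only [Finset.mem_insert, Finset.mem_singleton, not_or] at hu hv
    obtain ⟨hu1, hu2, hu3⟩ := hu
    obtain ⟨hv1, hv2, hv3⟩ := hv
    simp only [tG, Prod.mk.injEq] at ht
    obtain ⟨ht1, ht2, ht3⟩ := ht
    by_cases huv : u = v
    · rw [huv]
    by_cases hzo : z = o
    · rw [hzo]; exact ht2
    by_cases hzo1 : z = o1
    · rw [hzo1]; exact ht3
    have hw1 : ∀ u, g h u w1 = 0 := fun u => by rw [g_symm]; exact hI w1 m1 u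
    by_cases hzw : z = w1
    · rw [hzw, hw1, hw1]
    have fin : ∀ p q r s : ZMod 2, p + q + r + s = 0 → q = s → p = r := by decide
    rcases hoo with ⟨h0, ho1, ho2⟩ | ⟨hne, d1, d2⟩
    · have := betazero u v z w1 huv hzu.symm hu3 hzv.symm hv3 hzw ht1
        (by rw [h0, h0]) (Or.inl h0)
      simp only [beta] at this
      exact fin _ _ _ _ this (by rw [hw1, hw1])
    · have how1 : o ≠ w1 := by rintro rfl; rw [hIdeg _ m1] at d1; exact zero_ne_one d1
      rcases z2 (deg h z) with hz | hz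
      · have := betazero u v z w1 huv hzu.symm hu3 hzv.symm hv3 hzw ht1
          (by rw [hz, hIdeg _ m1])
          (Or.inr ⟨Ne.symm hu1, Ne.symm hv1, Ne.symm hzo, how1, d1⟩)
        simp only [beta] at this
        exact fin _ _ _ _ this (by rw [hw1, hw1])
      · have := betazero u v z o1 huv hzu.symm hu2 hzv.symm hv2 hzo1 ht1
          (by rw [hz, d2])
          (Or.inr ⟨Ne.symm hu1, Ne.symm hv1, Ne.symm hzo, hne, d1⟩)
        simp only [beta] at this
        exact fin _ _ _ _ this ht3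
  -- structure of the colouring
  have hr : ∀ a : ZMod 2, ∃ r : X, ∀ z, f z = a → f r = a := by
    intro a
    by_cases hh : ∃ z, f z = a
    · obtain ⟨z, hz⟩ := hh; exact ⟨z, fun _ _ => hz⟩
    · push Not at hh; exact ⟨x, fun z hz => absurd hz (hh z)⟩
  obtain ⟨r0, hr0⟩ := hr 0
  obtain ⟨r1, hr1⟩ := hr 1
  let tX : X → ZMod 2 × K4 × K4 := fun x => (f x, c x r0, c x r1)
  set X0 : Finset X := univ \ {r0, r1} with hX0
  have hX : ∀ x ∈ X0, ∀ y ∈ X0, tX x = tX y → ∀ z ∈ X0, z ≠ x → z ≠ y → c x z = c y z := by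
    intro x hx y hy ht z hz hzx hzy
    simp only [hX0, Finset.mem_sdiff, Finset.mem_univ, true_and, Finset.mem_insert,
      Finset.mem_singleton, not_or] at hx hy hz
    simp only [tX, Prod.mk.injEq] at ht
    obtain ⟨ht1, ht2, ht3⟩ := ht
    by_cases hxy : x = y
    · rw [hxy]
    have fin : ∀ p q r s : K4, p + q + r + s = 0 → q = s → p = r := by decide
    rcases z2 (f z) with hz0 | hz1
    · have := neutral x y z r0 hxy hzx.symm hx.1 hzy.symm hy.1 hz.1 ht1 (by rw [hz0, hr0 z hz0])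
      simp only [box] at this
      exact fin _ _ _ _ this ht2
    · have := neutral x y z r1 hxy hzx.symm hx.2 hzy.symm hy.2 hz.2 ht1 (by rw [hz1, hr1 z hz1])
      simp only [box] at this
      exact fin _ _ _ _ this ht3
  have hX0c : Fintype.card X ≤ X0.card + 2 := by
    have h1 := Finset.card_le_card_sdiff_add_card (s := (univ : Finset X)) (t := {r0, r1})
    have h2 : ({r0, r1} : Finset X).card ≤ 2 := Finset.card_le_two
    rw [Finset.card_univ, ← hX0] at h1
    omega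
  have hSG : ({o, o1, w1} : Finset V).card ≤ 3 := Finset.card_le_three
  obtain ⟨φ, hφ1, hφ2, hφ3⟩ := LL h hd c hc tG tX {o, o1, w1} X0 hG hX (Fintype.card V) univ
    (Finset.card_univ) X0 (Finset.Subset.refl _) (by
      have h1 : Fintype.card (ZMod 2 × K4 × K4) = 32 := by
        simp [Fintype.card_prod, ZMod.card]
      have h2 : Fintype.card (ZMod 2 × ZMod 2 × ZMod 2) = 8 := by
        simp [Fintype.card_prod, ZMod.card]
      rw [h1, h2, Finset.card_univ]
      exact arith1 _ _ _ _ hSG hX0c hcard) hev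
  have hinj : Function.Injective φ := by
    intro u v huv
    exact hφ2 (by simp) (by simp) huv
  exact hQ ⟨φ, hinj⟩ hφ3

end

end Pool.Agent.H29.ZS
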