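import Pool.Agent.H29.ZS.Core1

open Finset

namespace Pool.Agent.H29.ZS

section

variable {V X : Type*} [Fintype V] [DecidableEq V] [Fintype X] [DecidableEq X]

/-- restriction of positions -/
theorem restrict (h : V → V → ZMod 2) (c : X → X → K4) (X3 : Finset X)
    (H : ∃ φ : V ↪ {x // x ∈ X3}, Q h (fun x y => c x.1 y.1) φ = 0) :
    ∃ φ : V ↪ X, Q h c φ = 0 := by
  obtain ⟨φ, hφ⟩ := H
  exact ⟨φ.trans (Function.Embedding.subtype _), hφ⟩

/-- second coordinate trivial -/
theorem core2' (h : V → V → ZMod 2) (hd : ∀ u, h u u = 0) (hev : ∑ u, ∑ v, h u v = 0)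
    (c : X → X → K4) (hc : ∀ x y, c x y = c y x) (f : X → ZMod 2)
    (hf : ∀ x y, x ≠ y → (c x y).2 = f x + f y)
    (I : Finset V) (hI : ∀ w ∈ I, ∀ v, g h w v = 0) (hI5 : 5 ≤ I.card)
    {v1 v2 v3 v4 : V} (n13 : v1 ≠ v3) (n14 : v1 ≠ v4) (n23 : v2 ≠ v3)
    (n24 : v2 ≠ v4) (e12 : g h v1 v2 = 1) (e34 : g h v3 v4 = 1)
    (hcard : Fintype.card V + 1010 ≤ Fintype.card X) :
    ∃ φ : V ↪ X, Q h c φ = 0 := by
  have z2 : ∀ a : ZMod 2, a = 0 ∨ a = 1 := by decide
  by_cases hbig : ∀ a : ZMod 2, 5 ≤ (univ.filter (fun x => f x = a)).card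
  · refine core2 h hd hev c hc f hf (Or.inr ?_) I hI hI5 n13 n14 n23 n24 e12 e34 (by omega)
    intro a x1 x2 x3 x4
    have : ∃ z ∈ univ.filter (fun x => f x = a), z ∉ ({x1, x2, x3, x4} : Finset X) := by
      by_contra hcon
      push Not at hcon
      have h1 := Finset.card_le_card
        (show univ.filter (fun x => f x = a) ⊆ ({x1, x2, x3, x4} : Finset X) from hcon)
      have h2 : ({x1, x2, x3, x4} : Finset X).card ≤ 4 := Finset.card_le_four
      have h3 := hbig a
      omega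
    obtain ⟨z, hz1, hz2⟩ := this
    simp only [Finset.mem_insert, Finset.mem_singleton, not_or] at hz2
    exact ⟨z, (Finset.mem_filter.1 hz1).2, hz2.1, hz2.2.1, hz2.2.2.1, hz2.2.2.2⟩
  · push Not at hbig
    obtain ⟨a, ha⟩ := hbig
    set X3 : Finset X := univ.filter (fun x => ¬ f x = a) with hX3
    have hX3c : Fintype.card X < X3.card + 5 := by
      have := Finset.card_filter_add_card_filter_not (s := (univ : Finset X))
        (fun x => f x = a)
      rw [Finset.card_univ, ← hX3] at this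
      omega
    apply restrict h c X3
    have hconst : ∀ x y : {x // x ∈ X3}, f x.1 = f y.1 := by
      rintro ⟨x, hx⟩ ⟨y, hy⟩
      have h1 := (Finset.mem_filter.1 hx).2
      have h2 := (Finset.mem_filter.1 hy).2
      have : ∀ p q r : ZMod 2, ¬ p = r → ¬ q = r → p = q := by decide
      exact this _ _ _ h1 h2
    refine core2 h hd hev (fun x y : {x // x ∈ X3} => c x.1 y.1) (fun x y => hc _ _)
      (fun x => f x.1) ?_ (Or.inl hconst) I hI hI5 n13 n14 n23 n24 e12 e34 ?_
    · intro x y hxy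
      exact hf _ _ (fun e => hxy (Subtype.ext e))
    · rw [Fintype.card_coe]; omega

/-- complementary functional -/
def comp (a γ : K4) : ZMod 2 := if a.1 = 1 then (if a.2 = 1 then γ.1 else γ.1) else γ.2

theorem comp_add (a γ δ : K4) : comp a (γ + δ) = comp a γ + comp a δ := by
  simp only [comp]; split_ifs <;> rfl

theorem comp_zero (a : K4) : comp a 0 = 0 := by revert a; decide

theorem comp_smul (a : K4) (r : ZMod 2) (γ : K4) : comp a (r • γ) = r * comp a γ := by
  revert a r γ; decide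

theorem wedge_add (a γ δ : K4) : wedge a (γ + δ) = wedge a γ + wedge a δ := by
  revert a γ δ; decide

theorem wedge_smul (a : K4) (r : ZMod 2) (γ : K4) : wedge a (r • γ) = r * wedge a γ := by
  revert a r γ; decide

theorem wedge_zero_right (a : K4) : wedge a 0 = 0 := by revert a; decide

/-- for `a ≠ 0`, `wedge a` and `comp a` separate points -/
theorem comp_inj (a γ : K4) (ha : a ≠ 0) (h1 : wedge a γ = 0) (h2 : comp a γ = 0) : γ = 0 := by
  revert a γ; decide

/-- the two disjoint edges case -/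
theorem core3 (h : V → V → ZMod 2) (hd : ∀ u, h u u = 0) (hev : ∑ u, ∑ v, h u v = 0)
    (c : X → X → K4) (hc : ∀ x y, c x y = c y x)
    (I : Finset V) (hI : ∀ w ∈ I, ∀ v, g h w v = 0) (hI5 : 5 ≤ I.card)
    {v1 v2 v3 v4 : V} (n13 : v1 ≠ v3) (n14 : v1 ≠ v4) (n23 : v2 ≠ v3)
    (n24 : v2 ≠ v4) (e12 : g h v1 v2 = 1) (e34 : g h v3 v4 = 1)
    (hcard : Fintype.card V + 20500 ≤ Fintype.card X) :
    ∃ φ : V ↪ X, Q h c φ = 0 := by
  have z2 : ∀ a : ZMod 2, a = 0 ∨ a = 1 := by decide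
  by_cases hA : ∃ x1 y1 x2 y2 x3 y3 x4 y4 : X, D8 x1 y1 x2 y2 x3 y3 x4 y4 ∧
      wedge (box c x1 y1 x2 y2) (box c x3 y3 x4 y4) ≠ 0
  · obtain ⟨x1, y1, x2, y2, x3, y3, x4, y4, D, hw⟩ := hA
    exact core1 h hd hev c hc I hI hI5 n13 n14 n23 n24 e12 e34 D hw hcard
  push Not at hA
  by_cases hB : ∀ x y x' y' : X, x ≠ y → x ≠ x' → x ≠ y' → y ≠ x' → y ≠ y' → x' ≠ y' →
      box c x y x' y' = 0
  · exact trivial_case h hd hev c hc (by omega) hB
  push Not at hB
  obtain ⟨x1, y1, x2, y2, k1, k2, k3, k4, k5, k6, hane⟩ := hB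
  set a : K4 := box c x1 y1 x2 y2 with ha
  set P : Finset X := {x1, y1, x2, y2} with hP
  have hPc : P.card ≤ 4 := Finset.card_le_four
  have hr : ∃ r, r ∉ P := by
    by_contra hcon
    push Not at hcon
    have := Finset.card_le_card (show univ ⊆ P from fun a _ => hcon a)
    rw [Finset.card_univ] at this
    omega
  obtain ⟨r, hrP⟩ := hr
  set X2 : Finset X := univ \ insert r P with hX2
  have hX2c : Fintype.card X ≤ X2.card + 5 := by
    have h1 := Finset.card_le_card_sdiff_add_card (s := (univ : Finset X)) (t := insert r P)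
    have h2 := Finset.card_insert_le r P
    rw [Finset.card_univ, ← hX2] at h1
    omega
  have hbox : ∀ x y x' y' : X, x ∉ P → y ∉ P → x' ∉ P → y' ∉ P → x ≠ y → x ≠ x' → x ≠ y' →
      y ≠ x' → y ≠ y' → x' ≠ y' → wedge a (box c x y x' y') = 0 := by
    intro x y x' y' hx hy hx' hy' l1 l2 l3 l4 l5 l6
    simp only [hP, Finset.mem_insert, Finset.mem_singleton, not_or] at hx hy hx' hy'
    obtain ⟨a1, a2, a3, a4⟩ := hx
    obtain ⟨b1, b2, b3, b4⟩ := hy
    obtain ⟨c1, c2, c3, c4⟩ := hx'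
    obtain ⟨d1, d2, d3, d4⟩ := hy'
    exact hA x1 y1 x2 y2 x y x' y'
      ⟨k1, k2, k3, Ne.symm a1, Ne.symm b1, Ne.symm c1, Ne.symm d1, k4, k5, Ne.symm a2, Ne.symm b2,
        Ne.symm c2, Ne.symm d2, k6, Ne.symm a3, Ne.symm b3, Ne.symm c3, Ne.symm d3, Ne.symm a4,
        Ne.symm b4, Ne.symm c4, Ne.symm d4, l1, l2, l3, l4, l5, l6⟩
  -- the second coordinate is trivial on X2
  let f : X → ZMod 2 := fun x => wedge a (c x r)
  let c1 : X → X → K4 := fun x y => (wedge a (c x y) + f x + f y, 0)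
  have hc1 : ∀ x y, c1 x y = c1 y x := by
    intro x y
    simp only [c1, hc x y]
    rw [add_right_comm]
  have hmem : ∀ x, x ∈ X2 ↔ x ≠ r ∧ x ∉ P := by
    intro x
    simp only [hX2, Finset.mem_sdiff, Finset.mem_univ, true_and, Finset.mem_insert, not_or]
  have hY' : ∀ x ∈ X2, ∀ y ∈ X2, ∀ z ∈ X2, z ≠ x → z ≠ y → c1 x z = c1 y z := by
    intro x hx y hy z hz h1 h2
    rw [hmem] at hx hy hz
    by_cases hxy : x = y
    · rw [hxy]
    have := hbox x y z r hx.2 hy.2 hz.2 hrP hxy h1.symm hx.1 h2.symm hy.1 hz.1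
    simp only [box, wedge_add] at this
    simp only [c1, f]
    generalize wedge a (c x z) = p at *
    generalize wedge a (c y z) = q at *
    generalize wedge a (c x r) = d at *
    generalize wedge a (c y r) = e at *
    generalize wedge a (c z r) = f at *
    revert p q d e f; decide
  have hk : ∃ κ : ZMod 2, ∀ x ∈ X2, ∀ y ∈ X2, x ≠ y → wedge a (c x y) = f x + f y + κ := by
    have h2 : 1 < X2.card := by omega
    obtain ⟨p, hp, q, hq, hpq⟩ := Finset.one_lt_card.1 h2
    refine ⟨(c1 p q).1, fun x hx y hy hxy => ?_⟩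
    have := const_class c1 hc1 X2 hY' hx hy hp hq hxy hpq
    rw [← this]
    simp only [c1]
    generalize wedge a (c x y) = a
    generalize f x = b
    generalize f y = d
    revert a b d; decide
  obtain ⟨κ, hκ⟩ := hk
  let c2 : X → X → K4 := fun x y => (comp a (c x y), wedge a (c x y) + κ)
  have key : ∀ φ : V → X, Q h c2 φ = 0 → Q h c φ = 0 := by
    intro φ hφ
    have s1 : comp a (Q h c φ) = (Q h c2 φ).1 := by
      have hsum : ∀ (s : Finset V) (F : V → K4), comp a (∑ i ∈ s, F i) = ∑ i ∈ s, comp a (F i) := by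
        intro s F
        exact map_sum (⟨⟨comp a, comp_zero a⟩, comp_add a⟩ : K4 →+ ZMod 2) F s
      simp only [Q, Prod.fst_sum, Prod.smul_fst, hsum, comp_smul, c2, smul_eq_mul]
    have s2 : wedge a (Q h c φ) = (Q h c2 φ).2 := by
      have hsum : ∀ (s : Finset V) (F : V → K4),
          wedge a (∑ i ∈ s, F i) = ∑ i ∈ s, wedge a (F i) := by
        intro s F
        exact map_sum (⟨⟨wedge a, wedge_zero_right a⟩, wedge_add a⟩ : K4 →+ ZMod 2) F s
      simp only [Q, Prod.snd_sum, Prod.smul_snd, hsum, wedge_smul, c2, smul_eq_mul, mul_add,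
        Finset.sum_add_distrib]
      have : ∑ u, ∑ v, h u v * κ = 0 := by
        simp only [← Finset.sum_mul, hev, zero_mul]
      rw [this, add_zero]
    rw [hφ] at s1 s2
    exact comp_inj a _ hane s2 s1
  have hc2 : ∀ x y, c2 x y = c2 y x := by intro x y; simp only [c2, hc x y]
  obtain ⟨φ, hφ⟩ := restrict h c2 X2 (by
    refine core2' h hd hev (fun x y : {x // x ∈ X2} => c2 x.1 y.1) (fun x y => hc2 _ _)
      (fun x => f x.1) ?_ I hI hI5 n13 n14 n23 n24 e12 e34 ?_
    · intro x y hxy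
      simp only [c2]
      rw [hκ x.1 x.2 y.1 y.2 (fun e => hxy (Subtype.ext e)), add_assoc, zdbl, add_zero]
    · rw [Fintype.card_coe]; omega)
  exact ⟨φ, key φ hφ⟩

end

end Pool.Agent.H29.ZS
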