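import Pool.Agent.H29.ZS.Basic

open Finset

namespace Pool.Agent.H29.ZS

section

variable {V X : Type*} [Fintype V] [DecidableEq V]

/-- conditional swap -/
def S (v w : V) (e : Bool) : Equiv.Perm V := if e then Equiv.swap v w else 1

omit [Fintype V] in
theorem S_out {v w a : V} (e : Bool) (h1 : a ≠ v) (h2 : a ≠ w) : S v w e a = a := by
  cases e <;> simp [S, Equiv.swap_apply_of_ne_of_ne h1 h2]

omit [Fintype V] in
theorem S_l {v w : V} (e : Bool) : S v w e v = bif e then w else v := by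
  cases e <;> simp [S]

omit [Fintype V] in
theorem S_r {v w : V} (e : Bool) : S v w e w = bif e then v else w := by
  cases e <;> simp [S]

/-- the product of the four conditional swaps -/
def P4 (v1 w1 v2 w2 v3 w3 v4 w4 : V) (e1 e2 e3 e4 : Bool) : Equiv.Perm V :=
  S v1 w1 e1 * S v2 w2 e2 * S v3 w3 e3 * S v4 w4 e4

/-- eight distinct elements -/
structure D8 (v1 w1 v2 w2 v3 w3 v4 w4 : V) : Prop where
  a12 : v1 ≠ w1
  a13 : v1 ≠ v2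
  a14 : v1 ≠ w2
  a15 : v1 ≠ v3
  a16 : v1 ≠ w3
  a17 : v1 ≠ v4
  a18 : v1 ≠ w4
  a23 : w1 ≠ v2
  a24 : w1 ≠ w2
  a25 : w1 ≠ v3
  a26 : w1 ≠ w3
  a27 : w1 ≠ v4
  a28 : w1 ≠ w4
  a34 : v2 ≠ w2
  a35 : v2 ≠ v3
  a36 : v2 ≠ w3
  a37 : v2 ≠ v4
  a38 : v2 ≠ w4
  a45 : w2 ≠ v3
  a46 : w2 ≠ w3
  a47 : w2 ≠ v4
  a48 : w2 ≠ w4
  a56 : v3 ≠ w3
  a57 : v3 ≠ v4
  a58 : v3 ≠ w4
  a67 : w3 ≠ v4
  a68 : w3 ≠ w4
  a78 : v4 ≠ w4

variable {v1 w1 v2 w2 v3 w3 v4 w4 : V}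

omit [Fintype V] in
theorem P4_v1 (d : D8 v1 w1 v2 w2 v3 w3 v4 w4) (e1 e2 e3 e4 : Bool) :
    P4 v1 w1 v2 w2 v3 w3 v4 w4 e1 e2 e3 e4 v1 = bif e1 then w1 else v1 := by
  simp only [P4, Equiv.Perm.mul_apply]
  rw [S_out e4 d.a17 d.a18, S_out e3 d.a15 d.a16, S_out e2 d.a13 d.a14, S_l]

omit [Fintype V] in
theorem P4_w1 (d : D8 v1 w1 v2 w2 v3 w3 v4 w4) (e1 e2 e3 e4 : Bool) :
    P4 v1 w1 v2 w2 v3 w3 v4 w4 e1 e2 e3 e4 w1 = bif e1 then v1 else w1 := by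
  simp only [P4, Equiv.Perm.mul_apply]
  rw [S_out e4 d.a27 d.a28, S_out e3 d.a25 d.a26, S_out e2 d.a23 d.a24, S_r]

omit [Fintype V] in
theorem P4_v2 (d : D8 v1 w1 v2 w2 v3 w3 v4 w4) (e1 e2 e3 e4 : Bool) :
    P4 v1 w1 v2 w2 v3 w3 v4 w4 e1 e2 e3 e4 v2 = bif e2 then w2 else v2 := by
  simp only [P4, Equiv.Perm.mul_apply]
  rw [S_out e4 d.a37 d.a38, S_out e3 d.a35 d.a36, S_l]
  cases e2
  · exact S_out e1 d.a13.symm d.a23.symm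
  · exact S_out e1 d.a14.symm d.a24.symm

omit [Fintype V] in
theorem P4_w2 (d : D8 v1 w1 v2 w2 v3 w3 v4 w4) (e1 e2 e3 e4 : Bool) :
    P4 v1 w1 v2 w2 v3 w3 v4 w4 e1 e2 e3 e4 w2 = bif e2 then v2 else w2 := by
  simp only [P4, Equiv.Perm.mul_apply]
  rw [S_out e4 d.a47 d.a48, S_out e3 d.a45 d.a46, S_r]
  cases e2
  · exact S_out e1 d.a14.symm d.a24.symm
  · exact S_out e1 d.a13.symm d.a23.symm

omit [Fintype V] in
theorem P4_v3 (d : D8 v1 w1 v2 w2 v3 w3 v4 w4) (e1 e2 e3 e4 : Bool) :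
    P4 v1 w1 v2 w2 v3 w3 v4 w4 e1 e2 e3 e4 v3 = bif e3 then w3 else v3 := by
  simp only [P4, Equiv.Perm.mul_apply]
  rw [S_out e4 d.a57 d.a58, S_l]
  cases e3
  · simp only [cond_false]
    rw [S_out e2 d.a35.symm d.a45.symm]
    exact S_out e1 d.a15.symm d.a25.symm
  · simp only [cond_true]
    rw [S_out e2 d.a36.symm d.a46.symm]
    exact S_out e1 d.a16.symm d.a26.symm

omit [Fintype V] in
theorem P4_w3 (d : D8 v1 w1 v2 w2 v3 w3 v4 w4) (e1 e2 e3 e4 : Bool) :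
    P4 v1 w1 v2 w2 v3 w3 v4 w4 e1 e2 e3 e4 w3 = bif e3 then v3 else w3 := by
  simp only [P4, Equiv.Perm.mul_apply]
  rw [S_out e4 d.a67 d.a68, S_r]
  cases e3
  · simp only [cond_false]
    rw [S_out e2 d.a36.symm d.a46.symm]
    exact S_out e1 d.a16.symm d.a26.symm
  · simp only [cond_true]
    rw [S_out e2 d.a35.symm d.a45.symm]
    exact S_out e1 d.a15.symm d.a25.symm

omit [Fintype V] in
theorem P4_v4 (d : D8 v1 w1 v2 w2 v3 w3 v4 w4) (e1 e2 e3 e4 : Bool) :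
    P4 v1 w1 v2 w2 v3 w3 v4 w4 e1 e2 e3 e4 v4 = bif e4 then w4 else v4 := by
  simp only [P4, Equiv.Perm.mul_apply]
  rw [S_l]
  cases e4
  · simp only [cond_false]
    rw [S_out e3 d.a57.symm d.a67.symm, S_out e2 d.a37.symm d.a47.symm]
    exact S_out e1 d.a17.symm d.a27.symm
  · simp only [cond_true]
    rw [S_out e3 d.a58.symm d.a68.symm, S_out e2 d.a38.symm d.a48.symm]
    exact S_out e1 d.a18.symm d.a28.symm

omit [Fintype V] in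
theorem P4_w4 (d : D8 v1 w1 v2 w2 v3 w3 v4 w4) (e1 e2 e3 e4 : Bool) :
    P4 v1 w1 v2 w2 v3 w3 v4 w4 e1 e2 e3 e4 w4 = bif e4 then v4 else w4 := by
  simp only [P4, Equiv.Perm.mul_apply]
  rw [S_r]
  cases e4
  · simp only [cond_false]
    rw [S_out e3 d.a58.symm d.a68.symm, S_out e2 d.a38.symm d.a48.symm]
    exact S_out e1 d.a18.symm d.a28.symm
  · simp only [cond_true]
    rw [S_out e3 d.a57.symm d.a67.symm, S_out e2 d.a37.symm d.a47.symm]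
    exact S_out e1 d.a17.symm d.a27.symm

omit [Fintype V] in
theorem P4_out {a : V} (h1 : a ≠ v1) (h2 : a ≠ w1) (h3 : a ≠ v2) (h4 : a ≠ w2) (h5 : a ≠ v3)
    (h6 : a ≠ w3) (h7 : a ≠ v4) (h8 : a ≠ w4) (e1 e2 e3 e4 : Bool) :
    P4 v1 w1 v2 w2 v3 w3 v4 w4 e1 e2 e3 e4 a = a := by
  simp only [P4, Equiv.Perm.mul_apply]
  rw [S_out e4 h7 h8, S_out e3 h5 h6, S_out e2 h3 h4, S_out e1 h1 h2]

/-- top coefficient identity -/
theorem alg {R : Type*} [CommRing R]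
    (a0 a1 a2 a3 a4 a12 a13 a14 a23 a24 a34 b0 b1 b2 b3 b4 b12 b13 b14 b23 b24 b34 : R) :
    a12 * b34 + a34 * b12 + a13 * b24 + a24 * b13 + a14 * b23 + a23 * b14 =
    (1 + a0) * (1 + b0)
    - (1 + (a0 + a1)) * (1 + (b0 + b1))
    - (1 + (a0 + a2)) * (1 + (b0 + b2))
    - (1 + (a0 + a3)) * (1 + (b0 + b3))
    - (1 + (a0 + a4)) * (1 + (b0 + b4))
    + (1 + (a0 + a1 + a2 + a12)) * (1 + (b0 + b1 + b2 + b12))
    + (1 + (a0 + a1 + a3 + a13)) * (1 + (b0 + b1 + b3 + b13))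
    + (1 + (a0 + a1 + a4 + a14)) * (1 + (b0 + b1 + b4 + b14))
    + (1 + (a0 + a2 + a3 + a23)) * (1 + (b0 + b2 + b3 + b23))
    + (1 + (a0 + a2 + a4 + a24)) * (1 + (b0 + b2 + b4 + b24))
    + (1 + (a0 + a3 + a4 + a34)) * (1 + (b0 + b3 + b4 + b34))
    - (1 + (a0 + a1 + a2 + a3 + a12 + a13 + a23)) * (1 + (b0 + b1 + b2 + b3 + b12 + b13 + b23))
    - (1 + (a0 + a1 + a2 + a4 + a12 + a14 + a24)) * (1 + (b0 + b1 + b2 + b4 + b12 + b14 + b24))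
    - (1 + (a0 + a1 + a3 + a4 + a13 + a14 + a34)) * (1 + (b0 + b1 + b3 + b4 + b13 + b14 + b34))
    - (1 + (a0 + a2 + a3 + a4 + a23 + a24 + a34)) * (1 + (b0 + b2 + b3 + b4 + b23 + b24 + b34))
    + (1 + (a0 + a1 + a2 + a3 + a4 + a12 + a13 + a14 + a23 + a24 + a34)) *
      (1 + (b0 + b1 + b2 + b3 + b4 + b12 + b13 + b14 + b23 + b24 + b34)) := by
  ring

end

end Pool.Agent.H29.ZS
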