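import Pool.Agent.H29.ZS.LL

open Finset

namespace Pool.Agent.H29.ZS

section

theorem egz {X : Type*} [DecidableEq X] (t : X → K4) :
    ∀ k : ℕ, ∀ Y : Finset X, 2 * k + 3 ≤ Y.card →
      ∃ S ⊆ Y, S.card = 2 * k ∧ ∑ y ∈ S, t y = 0 := by
  intro k
  induction k with
  | zero => intro Y _; exact ⟨∅, Finset.empty_subset _, rfl, rfl⟩
  | succ k ih =>
    intro Y hY
    obtain ⟨x, hx, y, hy, hxy, ht⟩ := Finset.exists_ne_map_eq_of_card_lt_of_maps_to
      (s := Y) (t := (univ : Finset K4)) (f := t)
      (by
        have : (univ : Finset K4).card = 4 := by decide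
        omega) (fun _ _ => mem_univ _)
    obtain ⟨S, hS, hc, hs⟩ := ih ((Y.erase x).erase y) (by
      rw [Finset.card_erase_of_mem (Finset.mem_erase.2 ⟨hxy.symm, hy⟩),
        Finset.card_erase_of_mem hx]
      omega)
    have hyS : y ∉ S := fun h => by simpa using hS h
    have hxS : x ∉ S := fun h => by simpa using hS h
    have hxyS : x ∉ insert y S := by simp [hxy, hxS]
    refine ⟨insert x (insert y S), ?_, ?_, ?_⟩
    · intro a ha
      rcases Finset.mem_insert.1 ha with rfl | ha
      · exact hx
      rcases Finset.mem_insert.1 ha with rfl | ha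
      · exact hy
      exact Finset.mem_of_mem_erase (Finset.mem_of_mem_erase (hS ha))
    · rw [Finset.card_insert_of_notMem hxyS, Finset.card_insert_of_notMem hyS, hc]; ring
    · rw [Finset.sum_insert hxyS, Finset.sum_insert hyS, hs, ht, add_zero, dbl]

variable {V X : Type*} [Fintype V] [DecidableEq V] [DecidableEq X]

omit [DecidableEq V] in
theorem extend {k : ℕ} (a : Fin k → V) (ha : Function.Injective a) (b : Fin k → X)
    (hb : Function.Injective b) (X' : Finset X) (hbX : ∀ i, b i ∈ X')
    (hcard : Fintype.card V ≤ X'.card) :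
    ∃ φ : V ↪ X, (∀ i, φ (a i) = b i) ∧ ∀ v, φ v ∈ X' := by
  classical
  obtain ⟨T, hT1, hT2, hT3⟩ := Finset.exists_subsuperset_card_eq
    (s := Finset.univ.image b) (t := X') (n := Fintype.card V)
    (by intro x hx; obtain ⟨i, -, rfl⟩ := Finset.mem_image.1 hx; exact hbX i)
    (by
      rw [Finset.card_image_of_injective _ hb, ← Finset.card_image_of_injective _ ha]
      exact Finset.card_le_univ _) hcard
  rcases isEmpty_or_nonempty X with hX | ⟨⟨x0⟩⟩
  · have hV : IsEmpty V := by
      rw [← Fintype.card_eq_zero_iff, ← hT3]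
      simp [Finset.eq_empty_of_isEmpty T]
    exact ⟨⟨fun v => hV.elim v, fun v => hV.elim v⟩, fun i => hV.elim (a i), fun v => hV.elim v⟩
  · have hex : ∀ i, Function.extend a b (fun _ => x0) (a i) = b i :=
      fun i => ha.extend_apply b _ i
    obtain ⟨e, he⟩ := Finset.exists_equiv_extend_of_card_eq (α := V) (t := T) hT3.symm
      (s := Finset.univ.image a) (f := Function.extend a b (fun _ => x0))
      (by
        intro x hx
        obtain ⟨v, hv, rfl⟩ := Finset.mem_image.1 hx
        obtain ⟨i, -, rfl⟩ := Finset.mem_image.1 hv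
        rw [hex]
        exact hT1 (Finset.mem_image_of_mem _ (mem_univ _)))
      (by
        intro u hu v hv huv
        simp only [Finset.coe_image, Finset.coe_univ, Set.image_univ, Set.mem_range] at hu hv
        obtain ⟨i, rfl⟩ := hu
        obtain ⟨j, rfl⟩ := hv
        rw [hex, hex] at huv
        rw [hb huv])
    refine ⟨e.toEmbedding.trans (Function.Embedding.subtype _), fun i => ?_, fun v => ?_⟩
    · have := he (a i) (Finset.mem_image_of_mem _ (mem_univ _))
      rw [hex] at this
      simpa using this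
    · exact hT2 (e v).2

omit [DecidableEq V] in
theorem extendList (l : List (V × X)) (h1 : (l.map Prod.fst).Nodup) (h2 : (l.map Prod.snd).Nodup)
    (X' : Finset X) (hX : ∀ p ∈ l, p.2 ∈ X') (hcard : Fintype.card V ≤ X'.card) :
    ∃ φ : V ↪ X, (∀ p ∈ l, φ p.1 = p.2) ∧ ∀ v, φ v ∈ X' := by
  have hinj1 : Function.Injective (fun i : Fin l.length => (l.get i).1) := by
    intro i j hij
    have := List.nodup_iff_injective_get.1 h1
    have h3 : (⟨i, by simp⟩ : Fin (l.map Prod.fst).length) = ⟨j, by simp⟩ := by
      apply this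
      simpa using hij
    exact Fin.ext (by simpa using h3)
  have hinj2 : Function.Injective (fun i : Fin l.length => (l.get i).2) := by
    intro i j hij
    have := List.nodup_iff_injective_get.1 h2
    have h3 : (⟨i, by simp⟩ : Fin (l.map Prod.snd).length) = ⟨j, by simp⟩ := by
      apply this
      simpa using hij
    exact Fin.ext (by simpa using h3)
  obtain ⟨φ, h3, h4⟩ := extend _ hinj1 _ hinj2 X' (fun i => hX _ (List.get_mem _ _)) hcard
  refine ⟨φ, fun p hp => ?_, h4⟩
  obtain ⟨i, rfl⟩ := List.get_of_mem hp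
  exact h3 i

omit [DecidableEq X] in
/-- value of the quadratic sum for a trivial colouring -/
theorem trivsum {M : Type*} [AddCommGroup M] [Module (ZMod 2) M] (h : V → V → ZMod 2)
    (hd : ∀ u, h u u = 0) (hev : ∑ u, ∑ v, h u v = 0) (t : X → M) (κ : M) (c' : X → X → M)
    (φ : V → X) (hc' : ∀ u v, u ≠ v → c' (φ u) (φ v) = t (φ u) + t (φ v) + κ) :
    ∑ u, ∑ v, h u v • c' (φ u) (φ v) = ∑ u, (∑ v, g h u v) • t (φ u) := by
  have h1 : ∀ u v, h u v • c' (φ u) (φ v) = h u v • t (φ u) + h u v • t (φ v) + h u v • κ := by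
    intro u v
    by_cases huv : u = v
    · subst huv; simp [hd]
    · rw [hc' u v huv, smul_add, smul_add]
  simp only [h1, Finset.sum_add_distrib, g, add_smul]
  have h2 : ∑ u, ∑ v, h u v • κ = 0 := by
    simp only [← Finset.sum_smul, hev, zero_smul]
  rw [h2, add_zero]
  congr 1
  · exact Finset.sum_congr rfl fun u _ => (Finset.sum_smul).symm
  · rw [Finset.sum_comm]
    exact Finset.sum_congr rfl fun u _ => (Finset.sum_smul).symm

end

end Pool.Agent.H29.ZS
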