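import Pool.Agent.H29.ZS.Star

open Finset

namespace Pool.Agent.H29.ZS

section

variable {V X : Type*} [DecidableEq V] [DecidableEq X]

theorem sum_insert2 {M : Type*} [AddCommMonoid M] (F : V → V → M) (W : Finset V) (a : V)
    (ha : a ∉ W) :
    ∑ u ∈ insert a W, ∑ v ∈ insert a W, F u v =
      F a a + ∑ v ∈ W, (F a v + F v a) + ∑ u ∈ W, ∑ v ∈ W, F u v := by
  rw [Finset.sum_insert ha, Finset.sum_insert ha]
  have : ∑ u ∈ W, ∑ v ∈ insert a W, F u v = ∑ u ∈ W, (F u a + ∑ v ∈ W, F u v) :=
    Finset.sum_congr rfl fun u _ => Finset.sum_insert ha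
  rw [this, Finset.sum_add_distrib, Finset.sum_add_distrib]
  abel

theorem peel4 {M : Type*} [AddCommMonoid M] (F E : V → V → M) (hF : ∀ u, F u u = 0)
    (hE : ∀ u v, F u v + F v u = E u v) (W : Finset V) (u1 u2 u3 u4 : V)
    (h4 : u4 ∉ W) (h3 : u3 ∉ insert u4 W) (h2 : u2 ∉ insert u3 (insert u4 W))
    (h1 : u1 ∉ insert u2 (insert u3 (insert u4 W))) :
    ∑ u ∈ insert u1 (insert u2 (insert u3 (insert u4 W))),
      ∑ v ∈ insert u1 (insert u2 (insert u3 (insert u4 W))), F u v =
      ∑ u ∈ W, ∑ v ∈ W, F u v + ∑ v ∈ W, (E u1 v + E u2 v + E u3 v + E u4 v)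
        + (E u1 u2 + E u1 u3 + E u1 u4 + E u2 u3 + E u2 u4 + E u3 u4) := by
  rw [sum_insert2 F _ u1 h1, sum_insert2 F _ u2 h2, sum_insert2 F _ u3 h3, sum_insert2 F _ u4 h4]
  simp only [hF, hE]
  rw [Finset.sum_insert h2, Finset.sum_insert h3, Finset.sum_insert h4, Finset.sum_insert h3,
    Finset.sum_insert h4, Finset.sum_insert h4]
  simp only [Finset.sum_add_distrib]
  abel

omit [DecidableEq X] in
theorem inj_insert (φ : V → X) (W : Finset V) (a : V) (ha : a ∉ W) (x : X)
    (hx : ∀ v ∈ W, φ v ≠ x) (h : Set.InjOn φ W) :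
    Set.InjOn (Function.update φ a x) ↑(insert a W) := by
  intro u hu v hv huv
  simp only [Finset.coe_insert, Set.mem_insert_iff, Finset.mem_coe] at hu hv
  rcases hu with rfl | hu <;> rcases hv with rfl | hv
  · rfl
  · exfalso
    have hne : v ≠ u := fun h => ha (h ▸ hv)
    rw [Function.update_self, Function.update_of_ne hne] at huv
    exact hx v hv huv.symm
  · exfalso
    have hne : u ≠ v := fun h => ha (h ▸ hu)
    rw [Function.update_self, Function.update_of_ne hne] at huv
    exact hx u hu huv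
  · have hne : u ≠ a := fun h => ha (h ▸ hu)
    have hne' : v ≠ a := fun h => ha (h ▸ hv)
    rw [Function.update_of_ne hne, Function.update_of_ne hne'] at huv
    exact h hu hv huv

theorem exists_four {α : Type*} [DecidableEq α] (s : Finset α) (hs : 3 < s.card) :
    ∃ a b c d, a ∈ s ∧ b ∈ s ∧ c ∈ s ∧ d ∈ s ∧ a ≠ b ∧ a ≠ c ∧ a ≠ d ∧ b ≠ c ∧ b ≠ d ∧ c ≠ d := by
  have h1 : s.Nonempty := by
    rw [← Finset.card_pos]; omega
  obtain ⟨a, ha⟩ := h1
  have h2 : 2 < (s.erase a).card := by rw [Finset.card_erase_of_mem ha]; omega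
  obtain ⟨b, c, d, hb, hc, hd, h3, h4, h5⟩ := Finset.two_lt_card_iff.1 h2
  rw [Finset.mem_erase] at hb hc hd
  exact ⟨a, b, c, d, ha, hb.2, hc.2, hd.2, hb.1.symm, hc.1.symm, hd.1.symm, h3, h4, h5⟩

theorem const_class (c : X → X → K4) (hc : ∀ x y, c x y = c y x) (Y : Finset X)
    (hY : ∀ x ∈ Y, ∀ y ∈ Y, ∀ z ∈ Y, z ≠ x → z ≠ y → c x z = c y z)
    {x y x0 y0 : X} (hx : x ∈ Y) (hy : y ∈ Y) (hx0 : x0 ∈ Y) (hy0 : y0 ∈ Y) (hxy : x ≠ y)
    (hxy0 : x0 ≠ y0) : c x y = c x0 y0 := by
  by_cases h : y = y0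
  · subst h
    exact hY x hx x0 hx0 y hy hxy.symm hxy0.symm
  · rw [hY x hx y0 hy0 y hy hxy.symm h, hc y0 y]
    exact hY y hy x0 hx0 y0 hy0 (Ne.symm h) hxy0.symm

theorem LL {TG TX : Type*} [Fintype TG] [DecidableEq TG] [Fintype TX] [DecidableEq TX]
    (h : V → V → ZMod 2) (hd : ∀ u, h u u = 0) (c : X → X → K4) (hc : ∀ x y, c x y = c y x)
    (tG : V → TG) (tX : X → TX) (SG : Finset V) (X0 : Finset X)
    (hG : ∀ u v, u ∉ SG → v ∉ SG → tG u = tG v → ∀ z, z ≠ u → z ≠ v → g h u z = g h v z)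
    (hX : ∀ x ∈ X0, ∀ y ∈ X0, tX x = tX y → ∀ z ∈ X0, z ≠ x → z ≠ y → c x z = c y z) :
    ∀ n : ℕ, ∀ V' : Finset V, V'.card = n → ∀ X' ⊆ X0,
      V'.card + (Fintype.card TX * (SG.card + 3 * Fintype.card TG + 3) + 1) ≤ X'.card →
      ∑ u ∈ V', ∑ v ∈ V', h u v = 0 →
      ∃ φ : V → X, (∀ u ∈ V', φ u ∈ X') ∧ Set.InjOn φ V' ∧
        ∑ u ∈ V', ∑ v ∈ V', h u v • c (φ u) (φ v) = 0 := by
  intro n
  induction n using Nat.strong_induction_on with
  | _ n ih =>
  intro V' hn X' hX' hcard hev
  have hgs : ∀ u v, g h u v = g h v u := fun u v => add_comm _ _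
  by_cases hbig : 3 * Fintype.card TG < (V' \ SG).card
  · -- peel a block of four
    obtain ⟨t, -, ht⟩ := Finset.exists_lt_card_fiber_of_mul_lt_card_of_maps_to
      (s := V' \ SG) (t := (univ : Finset TG)) (f := tG) (n := 3) (fun _ _ => mem_univ _)
      (by rw [Finset.card_univ, mul_comm]; exact hbig)
    obtain ⟨u1, u2, u3, u4, m1, m2, m3, m4, n12, n13, n14, n23, n24, n34⟩ := exists_four _ ht
    simp only [Finset.mem_filter, Finset.mem_sdiff] at m1 m2 m3 m4
    obtain ⟨t', -, ht'⟩ := Finset.exists_lt_card_fiber_of_mul_lt_card_of_maps_to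
      (s := X') (t := (univ : Finset TX)) (f := tX) (n := 3) (fun _ _ => mem_univ _)
      (by
        rw [Finset.card_univ]
        have : Fintype.card TX * 3 ≤ Fintype.card TX * (SG.card + 3 * Fintype.card TG + 3) :=
          Nat.mul_le_mul_left _ (by omega)
        omega)
    obtain ⟨x1, x2, x3, x4, k1, k2, k3, k4, l12, l13, l14, l23, l24, l34⟩ := exists_four _ ht'
    simp only [Finset.mem_filter] at k1 k2 k3 k4
    set W := V' \ {u1, u2, u3, u4} with hW
    have h4 : u4 ∉ W := by simp [hW]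
    have h3 : u3 ∉ insert u4 W := by simp [hW, n34]
    have h2 : u2 ∉ insert u3 (insert u4 W) := by simp [hW, n23, n24]
    have h1 : u1 ∉ insert u2 (insert u3 (insert u4 W)) := by simp [hW, n12, n13, n14]
    have hVW : V' = insert u1 (insert u2 (insert u3 (insert u4 W))) := by
      ext a
      simp only [hW, Finset.mem_insert, Finset.mem_sdiff, Finset.mem_singleton]
      constructor
      · intro ha
        by_cases e1 : a = u1 <;> by_cases e2 : a = u2 <;> by_cases e3 : a = u3 <;>
          by_cases e4 : a = u4 <;> simp [*]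
      · rintro (rfl | rfl | rfl | rfl | ha)
        · exact m1.1.1
        · exact m2.1.1
        · exact m3.1.1
        · exact m4.1.1
        · exact ha.1
    have hcW : V'.card = W.card + 4 := by
      rw [hVW, Finset.card_insert_of_notMem h1, Finset.card_insert_of_notMem h2,
        Finset.card_insert_of_notMem h3, Finset.card_insert_of_notMem h4]
    set X2 := X' \ {x1, x2, x3, x4} with hX2
    have hcX : X'.card = X2.card + 4 := by
      have hsub : ({x1, x2, x3, x4} : Finset X) ⊆ X' := by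
        intro a ha
        simp only [Finset.mem_insert, Finset.mem_singleton] at ha
        rcases ha with rfl | rfl | rfl | rfl
        · exact k1.1
        · exact k2.1
        · exact k3.1
        · exact k4.1
      have := Finset.card_sdiff_add_card_eq_card hsub
      have h4' : ({x1, x2, x3, x4} : Finset X).card = 4 := by
        rw [Finset.card_insert_of_notMem (by simp [l12, l13, l14]),
          Finset.card_insert_of_notMem (by simp [l23, l24]),
          Finset.card_insert_of_notMem (by simp [l34]), Finset.card_singleton]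
      rw [h4', ← hX2] at this
      omega
    have hgz : ∀ z ∈ W, g h u2 z = g h u1 z ∧ g h u3 z = g h u1 z ∧ g h u4 z = g h u1 z := by
      intro z hz
      simp only [hW, Finset.mem_sdiff, Finset.mem_insert, Finset.mem_singleton, not_or] at hz
      obtain ⟨-, z1, z2, z3, z4⟩ := hz
      exact ⟨hG u2 u1 m2.1.2 m1.1.2 (m2.2.trans m1.2.symm) z z2 z1,
        hG u3 u1 m3.1.2 m1.1.2 (m3.2.trans m1.2.symm) z z3 z1,
        hG u4 u1 m4.1.2 m1.1.2 (m4.2.trans m1.2.symm) z z4 z1⟩
    have g13 : g h u1 u3 = g h u1 u2 := by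
      rw [hgs u1 u3, hG u3 u2 m3.1.2 m2.1.2 (m3.2.trans m2.2.symm) u1 n13 n12, hgs u2 u1]
    have g14 : g h u1 u4 = g h u1 u2 := by
      rw [hgs u1 u4, hG u4 u2 m4.1.2 m2.1.2 (m4.2.trans m2.2.symm) u1 n14 n12, hgs u2 u1]
    have g23 : g h u2 u3 = g h u1 u2 := by
      rw [hG u2 u1 m2.1.2 m1.1.2 (m2.2.trans m1.2.symm) u3 n23.symm n13.symm, g13]
    have g24 : g h u2 u4 = g h u1 u2 := by
      rw [hG u2 u1 m2.1.2 m1.1.2 (m2.2.trans m1.2.symm) u4 n24.symm n14.symm, g14]
    have g34 : g h u3 u4 = g h u1 u2 := by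
      rw [hG u3 u1 m3.1.2 m1.1.2 (m3.2.trans m1.2.symm) u4 n34.symm n14.symm, g14]
    -- evenness of the rest
    have hevW : ∑ u ∈ W, ∑ v ∈ W, h u v = 0 := by
      have := peel4 h (g h) hd (fun u v => rfl) W u1 u2 u3 u4 h4 h3 h2 h1
      rw [← hVW, hev, g13, g14, g23, g24, g34] at this
      have hz : ∑ v ∈ W, (g h u1 v + g h u2 v + g h u3 v + g h u4 v) = 0 := by
        apply Finset.sum_eq_zero
        intro z hz
        obtain ⟨e2, e3, e4⟩ := hgz z hz
        rw [e2, e3, e4]
        generalize g h u1 z = a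
        revert a; decide
      rw [hz] at this
      have h6 : g h u1 u2 + g h u1 u2 + g h u1 u2 + g h u1 u2 + g h u1 u2 + g h u1 u2 = 0 := by
        generalize g h u1 u2 = a
        revert a; decide
      rw [h6, add_zero, add_zero] at this
      exact this.symm
    obtain ⟨φ, hφ1, hφ2, hφ3⟩ := ih W.card (by omega) W rfl X2
      (Finset.sdiff_subset.trans hX') (by omega) hevW
    have hφX : ∀ v ∈ W, φ v ∈ X' ∧ φ v ≠ x1 ∧ φ v ≠ x2 ∧ φ v ≠ x3 ∧ φ v ≠ x4 := by
      intro v hv
      have := hφ1 v hv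
      simpa only [hX2, Finset.mem_sdiff, Finset.mem_insert, Finset.mem_singleton, not_or] using this
    let φ4 := Function.update φ u4 x4
    let φ3 := Function.update φ4 u3 x3
    let φ2 := Function.update φ3 u2 x2
    let φ1 := Function.update φ2 u1 x1
    have hne4 : ∀ v ∈ W, v ≠ u4 := fun v hv e => h4 (e ▸ hv)
    have hne3 : ∀ v ∈ insert u4 W, v ≠ u3 := fun v hv e => h3 (e ▸ hv)
    have hne2 : ∀ v ∈ insert u3 (insert u4 W), v ≠ u2 := fun v hv e => h2 (e ▸ hv)
    have hne1 : ∀ v ∈ insert u2 (insert u3 (insert u4 W)), v ≠ u1 := fun v hv e => h1 (e ▸ hv)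
    have p1 : φ1 u1 = x1 := Function.update_self ..
    have p2 : φ1 u2 = x2 := by
      simp only [φ1, φ2]
      rw [Function.update_of_ne n12.symm, Function.update_self]
    have p3 : φ1 u3 = x3 := by
      simp only [φ1, φ2, φ3]
      rw [Function.update_of_ne n13.symm, Function.update_of_ne n23.symm, Function.update_self]
    have p4 : φ1 u4 = x4 := by
      simp only [φ1, φ2, φ3, φ4]
      rw [Function.update_of_ne n14.symm, Function.update_of_ne n24.symm,
        Function.update_of_ne n34.symm, Function.update_self]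
    have pW : ∀ v ∈ W, φ1 v = φ v := by
      intro v hv
      simp only [φ1, φ2, φ3, φ4]
      rw [Function.update_of_ne (hne1 v (by simp [hv])), Function.update_of_ne (hne2 v (by simp [hv])),
        Function.update_of_ne (hne3 v (by simp [hv])), Function.update_of_ne (hne4 v hv)]
    have i4 : Set.InjOn φ4 ↑(insert u4 W) :=
      inj_insert φ W u4 h4 x4 (fun v hv => (hφX v hv).2.2.2.2) hφ2
    have i3 : Set.InjOn φ3 ↑(insert u3 (insert u4 W)) := by
      refine inj_insert φ4 _ u3 h3 x3 ?_ i4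
      intro v hv
      rcases Finset.mem_insert.1 hv with rfl | hv
      · simp only [φ4]; rw [Function.update_self]; exact l34.symm
      · simp only [φ4]; rw [Function.update_of_ne (hne4 v hv)]; exact (hφX v hv).2.2.2.1
    have i2 : Set.InjOn φ2 ↑(insert u2 (insert u3 (insert u4 W))) := by
      refine inj_insert φ3 _ u2 h2 x2 ?_ i3
      intro v hv
      rcases Finset.mem_insert.1 hv with rfl | hv
      · simp only [φ3]; rw [Function.update_self]; exact l23.symm
      · simp only [φ3]; rw [Function.update_of_ne (hne3 v hv)]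
        rcases Finset.mem_insert.1 hv with rfl | hv
        · simp only [φ4]; rw [Function.update_self]; exact l24.symm
        · simp only [φ4]; rw [Function.update_of_ne (hne4 v hv)]; exact (hφX v hv).2.2.1
    have i1 : Set.InjOn φ1 ↑(insert u1 (insert u2 (insert u3 (insert u4 W)))) := by
      refine inj_insert φ2 _ u1 h1 x1 ?_ i2
      intro v hv
      rcases Finset.mem_insert.1 hv with rfl | hv
      · simp only [φ2]; rw [Function.update_self]; exact l12.symm
      · simp only [φ2]; rw [Function.update_of_ne (hne2 v hv)]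
        rcases Finset.mem_insert.1 hv with rfl | hv
        · simp only [φ3]; rw [Function.update_self]; exact l13.symm
        · simp only [φ3]; rw [Function.update_of_ne (hne3 v hv)]
          rcases Finset.mem_insert.1 hv with rfl | hv
          · simp only [φ4]; rw [Function.update_self]; exact l14.symm
          · simp only [φ4]; rw [Function.update_of_ne (hne4 v hv)]; exact (hφX v hv).2.1
    refine ⟨φ1, ?_, ?_, ?_⟩
    · intro u hu
      rw [hVW] at hu
      simp only [Finset.mem_insert] at hu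
      rcases hu with rfl | rfl | rfl | rfl | hu
      · rw [p1]; exact k1.1
      · rw [p2]; exact k2.1
      · rw [p3]; exact k3.1
      · rw [p4]; exact k4.1
      · rw [pW u hu]; exact (hφX u hu).1
    · rw [hVW]; exact i1
    · have hp := peel4 (fun u v => h u v • c (φ1 u) (φ1 v)) (fun u v => g h u v • c (φ1 u) (φ1 v))
        (fun u => by simp [hd]) (fun u v => by
          show h u v • c (φ1 u) (φ1 v) + h v u • c (φ1 v) (φ1 u) = g h u v • c (φ1 u) (φ1 v)
          rw [hc (φ1 v) (φ1 u), ← add_smul]; rfl) W u1 u2 u3 u4 h4 h3 h2 h1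
      rw [← hVW] at hp
      rw [hp]
      have s1 : ∑ u ∈ W, ∑ v ∈ W, h u v • c (φ1 u) (φ1 v) = 0 := by
        rw [← hφ3]
        refine Finset.sum_congr rfl fun u hu => Finset.sum_congr rfl fun v hv => ?_
        rw [pW u hu, pW v hv]
      have x1m : x1 ∈ X0 := hX' k1.1
      have x2m : x2 ∈ X0 := hX' k2.1
      have x3m : x3 ∈ X0 := hX' k3.1
      have x4m : x4 ∈ X0 := hX' k4.1
      have s2 : ∑ v ∈ W, (g h u1 v • c (φ1 u1) (φ1 v) + g h u2 v • c (φ1 u2) (φ1 v) +
          g h u3 v • c (φ1 u3) (φ1 v) + g h u4 v • c (φ1 u4) (φ1 v)) = 0 := by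
        apply Finset.sum_eq_zero
        intro z hz
        obtain ⟨e2, e3, e4⟩ := hgz z hz
        obtain ⟨r0, r1, r2, r3, r4⟩ := hφX z hz
        have zm : φ z ∈ X0 := hX' r0
        rw [e2, e3, e4, p1, p2, p3, p4, pW z hz,
          hX x2 x2m x1 x1m (k2.2.trans k1.2.symm) (φ z) zm r2 r1,
          hX x3 x3m x1 x1m (k3.2.trans k1.2.symm) (φ z) zm r3 r1,
          hX x4 x4m x1 x1m (k4.2.trans k1.2.symm) (φ z) zm r4 r1]
        generalize g h u1 z • c x1 (φ z) = a
        revert a; decide
      have c13 : c x1 x3 = c x1 x2 := by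
        rw [hc x1 x3, hX x3 x3m x2 x2m (k3.2.trans k2.2.symm) x1 x1m l13 l12, hc x2 x1]
      have c14 : c x1 x4 = c x1 x2 := by
        rw [hc x1 x4, hX x4 x4m x2 x2m (k4.2.trans k2.2.symm) x1 x1m l14 l12, hc x2 x1]
      have c23 : c x2 x3 = c x1 x2 := by
        rw [hX x2 x2m x1 x1m (k2.2.trans k1.2.symm) x3 x3m l23.symm l13.symm, c13]
      have c24 : c x2 x4 = c x1 x2 := by
        rw [hX x2 x2m x1 x1m (k2.2.trans k1.2.symm) x4 x4m l24.symm l14.symm, c14]
      have c34 : c x3 x4 = c x1 x2 := by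
        rw [hX x3 x3m x1 x1m (k3.2.trans k1.2.symm) x4 x4m l34.symm l14.symm, c14]
      rw [s1, s2, p1, p2, p3, p4, g13, g14, g23, g24, g34, c13, c14, c23, c24, c34]
      generalize g h u1 u2 • c x1 x2 = a
      revert a; decide
  · -- base case
    push Not at hbig
    have hV : V'.card ≤ SG.card + 3 * Fintype.card TG := by
      have h1 : V'.card ≤ (V' \ SG).card + SG.card := by
        have := Finset.card_le_card_sdiff_add_card (s := V') (t := SG)
        omega
      omega
    obtain ⟨t', -, ht'⟩ := Finset.exists_lt_card_fiber_of_mul_lt_card_of_maps_to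
      (s := X') (t := (univ : Finset TX)) (f := tX) (n := V'.card) (fun _ _ => mem_univ _)
      (by
        rw [Finset.card_univ]
        have : Fintype.card TX * V'.card ≤
            Fintype.card TX * (SG.card + 3 * Fintype.card TG + 3) :=
          Nat.mul_le_mul_left _ (by omega)
        omega)
    set Y := X'.filter (fun x => tX x = t') with hYdef
    have hYprop : ∀ x ∈ Y, ∀ y ∈ Y, ∀ z ∈ Y, z ≠ x → z ≠ y → c x z = c y z := by
      intro x hx y hy z hz h1 h2
      simp only [hYdef, Finset.mem_filter] at hx hy hz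
      exact hX x (hX' hx.1) y (hX' hy.1) (hx.2.trans hy.2.symm) z (hX' hz.1) h1 h2
    have hemb : Nonempty (↥V' ↪ ↥Y) :=
      Function.Embedding.nonempty_of_card_le (by simp; omega)
    obtain ⟨f⟩ := hemb
    have hne : Y.Nonempty := by rw [← Finset.card_pos]; omega
    obtain ⟨y0, hy0⟩ := hne
    let φ : V → X := fun v => if hv : v ∈ V' then (f ⟨v, hv⟩ : X) else y0
    have hφ : ∀ v (hv : v ∈ V'), φ v = f ⟨v, hv⟩ := fun v hv => by simp [φ, hv]
    have hφY : ∀ v ∈ V', φ v ∈ Y := fun v hv => by rw [hφ v hv]; exact (f ⟨v, hv⟩).2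
    have hinj : Set.InjOn φ V' := by
      intro u hu v hv huv
      rw [hφ u hu, hφ v hv] at huv
      have := f.injective (Subtype.ext huv)
      exact congrArg Subtype.val this
    refine ⟨φ, fun u hu => (Finset.mem_filter.1 (hφY u hu)).1, hinj, ?_⟩
    by_cases hone : ∃ a ∈ V', ∃ b ∈ V', a ≠ b
    · obtain ⟨a, ha, b, hb, hab⟩ := hone
      have hconst : ∀ u ∈ V', ∀ v ∈ V', h u v • c (φ u) (φ v) = h u v • c (φ a) (φ b) := by
        intro u hu v hv
        by_cases huv : u = v
        · subst huv; simp [hd]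
        · rw [const_class c hc Y hYprop (hφY u hu) (hφY v hv) (hφY a ha) (hφY b hb)
            (fun e => huv (hinj hu hv e)) (fun e => hab (hinj ha hb e))]
      calc ∑ u ∈ V', ∑ v ∈ V', h u v • c (φ u) (φ v)
          = ∑ u ∈ V', ∑ v ∈ V', h u v • c (φ a) (φ b) :=
            Finset.sum_congr rfl fun u hu => Finset.sum_congr rfl fun v hv => hconst u hu v hv
        _ = (∑ u ∈ V', ∑ v ∈ V', h u v) • c (φ a) (φ b) := by
            simp only [Finset.sum_smul]
        _ = 0 := by rw [hev, zero_smul]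
    · push Not at hone
      apply Finset.sum_eq_zero
      intro u hu
      apply Finset.sum_eq_zero
      intro v hv
      rw [hone u hu v hv, hd, zero_smul]

end

end Pool.Agent.H29.ZS
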