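import Pool.Agent.H29.ZS.Cube

open Finset

namespace Pool.Agent.H29.ZS

/-- determinant -/
def wedge (p q : K4) : ZMod 2 := p.1 * q.2 + q.1 * p.2

theorem nzprod (a : K4) (ha : a ≠ 0) : (1 + a.1) * (1 + a.2) = 0 := by revert a; decide

theorem solve4 (a b c d q : K4) (h : a + b + c + d = q) : d = a + b + c + q := by
  subst h; revert a b c d; decide

section

variable {V X : Type*} [Fintype V] [DecidableEq V]

/-- number of edges between two pairs, mod 2 -/
def beta (h : V → V → ZMod 2) (v w v' w' : V) : ZMod 2 :=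
  g h v v' + g h v w' + g h w v' + g h w w'

variable {v1 w1 v2 w2 v3 w3 v4 w4 : V}

theorem star (h : V → V → ZMod 2) (c : X → X → K4) (hc : ∀ x y, c x y = c y x)
    (hQ : ∀ φ : V ↪ X, Q h c φ ≠ 0) (d : D8 v1 w1 v2 w2 v3 w3 v4 w4) (φ : V ↪ X)
    {x1 y1 x2 y2 x3 y3 x4 y4 : X}
    (hx1 : φ v1 = x1) (hy1 : φ w1 = y1) (hx2 : φ v2 = x2) (hy2 : φ w2 = y2)
    (hx3 : φ v3 = x3) (hy3 : φ w3 = y3) (hx4 : φ v4 = x4) (hy4 : φ w4 = y4) :
    beta h v1 w1 v2 w2 * beta h v3 w3 v4 w4 * wedge (box c x1 y1 x2 y2) (box c x3 y3 x4 y4) +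
    beta h v1 w1 v3 w3 * beta h v2 w2 v4 w4 * wedge (box c x1 y1 x3 y3) (box c x2 y2 x4 y4) +
    beta h v1 w1 v4 w4 * beta h v2 w2 v3 w3 * wedge (box c x1 y1 x4 y4) (box c x2 y2 x3 y3)
      = 0 := by
  set s : Bool → Bool → Bool → Bool → K4 := fun e1 e2 e3 e4 =>
    Q h c (fun a => φ (P4 v1 w1 v2 w2 v3 w3 v4 w4 e1 e2 e3 e4 a)) with hs
  have hnz : ∀ e1 e2 e3 e4, s e1 e2 e3 e4 ≠ 0 := by
    intro e1 e2 e3 e4
    exact hQ ((P4 v1 w1 v2 w2 v3 w3 v4 w4 e1 e2 e3 e4).toEmbedding.trans φ)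
  have out : ∀ (a : V) e1 e2 e3 e4, a ≠ v1 → a ≠ w1 → a ≠ v2 → a ≠ w2 → a ≠ v3 → a ≠ w3 →
      a ≠ v4 → a ≠ w4 → P4 v1 w1 v2 w2 v3 w3 v4 w4 e1 e2 e3 e4 a = a := by
    intro a e1 e2 e3 e4 h1 h2 h3 h4 h5 h6 h7 h8
    exact P4_out h1 h2 h3 h4 h5 h6 h7 h8 e1 e2 e3 e4
  have E12 : ∀ e3 e4, s false false e3 e4 + s true false e3 e4 + s false true e3 e4 +
      s true true e3 e4 = beta h v1 w1 v2 w2 • box c x1 y1 x2 y2 := by
    intro e3 e4
    refine F1 h c hc d.a12 d.a13 d.a14 d.a23 d.a24 d.a34 _ _ _ _ ?_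
      ?_ ?_ ?_ ?_ ?_ ?_ ?_ ?_ ?_ ?_ ?_ ?_ ?_ ?_ ?_ ?_
    · intro a h1 h2 h3 h4
      by_cases h5 : a = v3
      · subst h5; simp [P4_v3 d]
      by_cases h6 : a = w3
      · subst h6; simp [P4_w3 d]
      by_cases h7 : a = v4
      · subst h7; simp [P4_v4 d]
      by_cases h8 : a = w4
      · subst h8; simp [P4_w4 d]
      simp [out a _ _ _ _ h1 h2 h3 h4 h5 h6 h7 h8]
    all_goals simp [P4_v1 d, P4_w1 d, P4_v2 d, P4_w2 d, *]
  have E13 : ∀ e2 e4, s false e2 false e4 + s true e2 false e4 + s false e2 true e4 +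
      s true e2 true e4 = beta h v1 w1 v3 w3 • box c x1 y1 x3 y3 := by
    intro e2 e4
    refine F1 h c hc d.a12 d.a15 d.a16 d.a25 d.a26 d.a56 _ _ _ _ ?_
      ?_ ?_ ?_ ?_ ?_ ?_ ?_ ?_ ?_ ?_ ?_ ?_ ?_ ?_ ?_ ?_
    · intro a h1 h2 h5 h6
      by_cases h3 : a = v2
      · subst h3; simp [P4_v2 d]
      by_cases h4 : a = w2
      · subst h4; simp [P4_w2 d]
      by_cases h7 : a = v4
      · subst h7; simp [P4_v4 d]
      by_cases h8 : a = w4
      · subst h8; simp [P4_w4 d]
      simp [out a _ _ _ _ h1 h2 h3 h4 h5 h6 h7 h8]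
    all_goals simp [P4_v1 d, P4_w1 d, P4_v3 d, P4_w3 d, *]
  have E14 : ∀ e2 e3, s false e2 e3 false + s true e2 e3 false + s false e2 e3 true +
      s true e2 e3 true = beta h v1 w1 v4 w4 • box c x1 y1 x4 y4 := by
    intro e2 e3
    refine F1 h c hc d.a12 d.a17 d.a18 d.a27 d.a28 d.a78 _ _ _ _ ?_
      ?_ ?_ ?_ ?_ ?_ ?_ ?_ ?_ ?_ ?_ ?_ ?_ ?_ ?_ ?_ ?_
    · intro a h1 h2 h7 h8
      by_cases h3 : a = v2
      · subst h3; simp [P4_v2 d]
      by_cases h4 : a = w2
      · subst h4; simp [P4_w2 d]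
      by_cases h5 : a = v3
      · subst h5; simp [P4_v3 d]
      by_cases h6 : a = w3
      · subst h6; simp [P4_w3 d]
      simp [out a _ _ _ _ h1 h2 h3 h4 h5 h6 h7 h8]
    all_goals simp [P4_v1 d, P4_w1 d, P4_v4 d, P4_w4 d, *]
  have E23 : ∀ e1 e4, s e1 false false e4 + s e1 true false e4 + s e1 false true e4 +
      s e1 true true e4 = beta h v2 w2 v3 w3 • box c x2 y2 x3 y3 := by
    intro e1 e4
    refine F1 h c hc d.a34 d.a35 d.a36 d.a45 d.a46 d.a56 _ _ _ _ ?_
      ?_ ?_ ?_ ?_ ?_ ?_ ?_ ?_ ?_ ?_ ?_ ?_ ?_ ?_ ?_ ?_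
    · intro a h3 h4 h5 h6
      by_cases h1 : a = v1
      · subst h1; simp [P4_v1 d]
      by_cases h2 : a = w1
      · subst h2; simp [P4_w1 d]
      by_cases h7 : a = v4
      · subst h7; simp [P4_v4 d]
      by_cases h8 : a = w4
      · subst h8; simp [P4_w4 d]
      simp [out a _ _ _ _ h1 h2 h3 h4 h5 h6 h7 h8]
    all_goals simp [P4_v2 d, P4_w2 d, P4_v3 d, P4_w3 d, *]
  have E24 : ∀ e1 e3, s e1 false e3 false + s e1 true e3 false + s e1 false e3 true +
      s e1 true e3 true = beta h v2 w2 v4 w4 • box c x2 y2 x4 y4 := by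
    intro e1 e3
    refine F1 h c hc d.a34 d.a37 d.a38 d.a47 d.a48 d.a78 _ _ _ _ ?_
      ?_ ?_ ?_ ?_ ?_ ?_ ?_ ?_ ?_ ?_ ?_ ?_ ?_ ?_ ?_ ?_
    · intro a h3 h4 h7 h8
      by_cases h1 : a = v1
      · subst h1; simp [P4_v1 d]
      by_cases h2 : a = w1
      · subst h2; simp [P4_w1 d]
      by_cases h5 : a = v3
      · subst h5; simp [P4_v3 d]
      by_cases h6 : a = w3
      · subst h6; simp [P4_w3 d]
      simp [out a _ _ _ _ h1 h2 h3 h4 h5 h6 h7 h8]
    all_goals simp [P4_v2 d, P4_w2 d, P4_v4 d, P4_w4 d, *]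
  have E34 : ∀ e1 e2, s e1 e2 false false + s e1 e2 true false + s e1 e2 false true +
      s e1 e2 true true = beta h v3 w3 v4 w4 • box c x3 y3 x4 y4 := by
    intro e1 e2
    refine F1 h c hc d.a56 d.a57 d.a58 d.a67 d.a68 d.a78 _ _ _ _ ?_
      ?_ ?_ ?_ ?_ ?_ ?_ ?_ ?_ ?_ ?_ ?_ ?_ ?_ ?_ ?_ ?_
    · intro a h5 h6 h7 h8
      by_cases h1 : a = v1
      · subst h1; simp [P4_v1 d]
      by_cases h2 : a = w1
      · subst h2; simp [P4_w1 d]
      by_cases h3 : a = v2
      · subst h3; simp [P4_v2 d]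
      by_cases h4 : a = w2
      · subst h4; simp [P4_w2 d]
      simp [out a _ _ _ _ h1 h2 h3 h4 h5 h6 h7 h8]
    all_goals simp [P4_v3 d, P4_w3 d, P4_v4 d, P4_w4 d, *]
  -- now algebra
  have two : (2 : K4) = 0 := by decide
  set q12 : K4 := beta h v1 w1 v2 w2 • box c x1 y1 x2 y2 with hq12
  set q13 : K4 := beta h v1 w1 v3 w3 • box c x1 y1 x3 y3 with hq13
  set q14 : K4 := beta h v1 w1 v4 w4 • box c x1 y1 x4 y4 with hq14
  set q23 : K4 := beta h v2 w2 v3 w3 • box c x2 y2 x3 y3 with hq23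
  set q24 : K4 := beta h v2 w2 v4 w4 • box c x2 y2 x4 y4 with hq24
  set q34 : K4 := beta h v3 w3 v4 w4 • box c x3 y3 x4 y4 with hq34
  obtain ⟨s0, hs0⟩ : ∃ s0, s0 = s false false false false := ⟨_, rfl⟩
  obtain ⟨d1, hd1⟩ : ∃ d1, d1 = s true false false false + s0 := ⟨_, rfl⟩
  obtain ⟨d2, hd2⟩ : ∃ d2, d2 = s false true false false + s0 := ⟨_, rfl⟩
  obtain ⟨d3, hd3⟩ : ∃ d3, d3 = s false false true false + s0 := ⟨_, rfl⟩
  obtain ⟨d4, hd4⟩ : ∃ d4, d4 = s false false false true + s0 := ⟨_, rfl⟩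
  have t1 : s true false false false = s0 + d1 := by rw [hd1]; linear_combination -s0 * two
  have t2 : s false true false false = s0 + d2 := by rw [hd2]; linear_combination -s0 * two
  have t3 : s false false true false = s0 + d3 := by rw [hd3]; linear_combination -s0 * two
  have t4 : s false false false true = s0 + d4 := by rw [hd4]; linear_combination -s0 * two
  have t12 : s true true false false = s0 + d1 + d2 + q12 := by
    have := solve4 _ _ _ _ _ (E12 false false)
    rw [this, t1, t2, ← hs0]; linear_combination s0 * two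
  have t13 : s true false true false = s0 + d1 + d3 + q13 := by
    have := solve4 _ _ _ _ _ (E13 false false)
    rw [this, t1, t3, ← hs0]; linear_combination s0 * two
  have t14 : s true false false true = s0 + d1 + d4 + q14 := by
    have := solve4 _ _ _ _ _ (E14 false false)
    rw [this, t1, t4, ← hs0]; linear_combination s0 * two
  have t23 : s false true true false = s0 + d2 + d3 + q23 := by
    have := solve4 _ _ _ _ _ (E23 false false)
    rw [this, t2, t3, ← hs0]; linear_combination s0 * two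
  have t24 : s false true false true = s0 + d2 + d4 + q24 := by
    have := solve4 _ _ _ _ _ (E24 false false)
    rw [this, t2, t4, ← hs0]; linear_combination s0 * two
  have t34 : s false false true true = s0 + d3 + d4 + q34 := by
    have := solve4 _ _ _ _ _ (E34 false false)
    rw [this, t3, t4, ← hs0]; linear_combination s0 * two
  have t123 : s true true true false = s0 + d1 + d2 + d3 + q12 + q13 + q23 := by
    have := solve4 _ _ _ _ _ (E12 true false)
    rw [this, t3, t13, t23]; linear_combination (s0 + d3) * two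
  have t124 : s true true false true = s0 + d1 + d2 + d4 + q12 + q14 + q24 := by
    have := solve4 _ _ _ _ _ (E12 false true)
    rw [this, t4, t14, t24]; linear_combination (s0 + d4) * two
  have t134 : s true false true true = s0 + d1 + d3 + d4 + q13 + q14 + q34 := by
    have := solve4 _ _ _ _ _ (E13 false true)
    rw [this, t4, t14, t34]; linear_combination (s0 + d4) * two
  have t234 : s false true true true = s0 + d2 + d3 + d4 + q23 + q24 + q34 := by
    have := solve4 _ _ _ _ _ (E23 false true)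
    rw [this, t4, t24, t34]; linear_combination (s0 + d4) * two
  have t1234 : s true true true true =
      s0 + d1 + d2 + d3 + d4 + q12 + q13 + q14 + q23 + q24 + q34 := by
    have := solve4 _ _ _ _ _ (E12 true true)
    rw [this, t34, t134, t234]; linear_combination (s0 + d3 + d4 + q34) * two
  have n0 := nzprod _ (hs0 ▸ hnz false false false false)
  have n1 := nzprod _ (t1 ▸ hnz true false false false)
  have n2 := nzprod _ (t2 ▸ hnz false true false false)
  have n3 := nzprod _ (t3 ▸ hnz false false true false)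
  have n4 := nzprod _ (t4 ▸ hnz false false false true)
  have n12 := nzprod _ (t12 ▸ hnz true true false false)
  have n13 := nzprod _ (t13 ▸ hnz true false true false)
  have n14 := nzprod _ (t14 ▸ hnz true false false true)
  have n23 := nzprod _ (t23 ▸ hnz false true true false)
  have n24 := nzprod _ (t24 ▸ hnz false true false true)
  have n34 := nzprod _ (t34 ▸ hnz false false true true)
  have n123 := nzprod _ (t123 ▸ hnz true true true false)
  have n124 := nzprod _ (t124 ▸ hnz true true false true)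
  have n134 := nzprod _ (t134 ▸ hnz true false true true)
  have n234 := nzprod _ (t234 ▸ hnz false true true true)
  have n1234 := nzprod _ (t1234 ▸ hnz true true true true)
  simp only [Prod.fst_add, Prod.snd_add] at n0 n1 n2 n3 n4 n12 n13 n14 n23 n24 n34
  simp only [Prod.fst_add, Prod.snd_add] at n123 n124 n134 n234 n1234
  have al := alg s0.1 d1.1 d2.1 d3.1 d4.1 q12.1 q13.1 q14.1 q23.1 q24.1 q34.1
    s0.2 d1.2 d2.2 d3.2 d4.2 q12.2 q13.2 q14.2 q23.2 q24.2 q34.2
  rw [n0, n1, n2, n3, n4, n12, n13, n14, n23, n24, n34, n123, n124, n134, n234, n1234] at al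
  simp only [hq12, hq13, hq14, hq23, hq24, hq34, Prod.smul_fst, Prod.smul_snd, smul_eq_mul] at al
  simp only [wedge]
  linear_combination al

end

end Pool.Agent.H29.ZS
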