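import Pool.Agent.H29.ZS.Core3

open Finset

namespace Pool.Agent.H29.ZS

section

variable {V X : Type*} [Fintype V] [DecidableEq V] [Fintype X] [DecidableEq X]

omit [Fintype X] [DecidableEq X] in
theorem sym_sum (k : V → V → ZMod 2) (hsym : ∀ u v, k u v = k v u)
    (hdiag : ∀ u, k u u = 0) (C : V → V → K4) (hC : ∀ u v, C u v = C v u) :
    ∑ u, ∑ v, k u v • C u v = 0 := by
  rw [← Finset.sum_product']
  refine Finset.sum_involution (fun p _ => (p.2, p.1)) ?_ ?_ ?_ ?_
  · intro p _
    show k p.1 p.2 • C p.1 p.2 + k p.2 p.1 • C p.2 p.1 = 0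
    rw [hsym p.2 p.1, hC p.2 p.1]
    exact dbl _
  · intro p _ hne heq
    apply hne
    have : p.1 = p.2 := by
      have := congrArg Prod.fst heq
      exact this.symm
    rw [this, hdiag, zero_smul]
  · intro p _
    exact Finset.mem_product.2 ⟨mem_univ _, mem_univ _⟩
  · intro p _
    rfl

omit [Fintype X] [DecidableEq X] in
theorem change (h h' : V → V → ZMod 2) (hd : ∀ u, h u u = 0) (hd' : ∀ u, h' u u = 0)
    (hg : ∀ u v, g h u v = g h' u v) (C : V → V → K4) (hC : ∀ u v, C u v = C v u) :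
    ∑ u, ∑ v, h u v • C u v = ∑ u, ∑ v, h' u v • C u v := by
  have := sym_sum (fun u v => h u v + h' u v) (by
    intro u v
    have := hg u v
    simp only [g] at this
    show h u v + h' u v = h v u + h' v u
    generalize h u v = a at *
    generalize h v u = b at *
    generalize h' u v = c at *
    generalize h' v u = d at *
    revert a b c d; decide) (by intro u; show h u u + h' u u = 0; rw [hd, hd', add_zero]) C hC
  simp only [add_smul, Finset.sum_add_distrib] at this
  generalize ∑ u, ∑ v, h u v • C u v = a at *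
  generalize ∑ u, ∑ v, h' u v • C u v = b at *
  revert a b; decide

/-- star with centre `a` -/
theorem star_case (h : V → V → ZMod 2) (hd : ∀ u, h u u = 0) (hev : ∑ u, ∑ v, h u v = 0)
    (c : X → X → K4) (hc : ∀ x y, c x y = c y x) (a : V)
    (ha : ∀ u v, g h u v = 1 → u = a ∨ v = a)
    (hcard : Fintype.card V + 10 ≤ Fintype.card X) :
    ∃ φ : V ↪ X, Q h c φ = 0 := by
  have z2 : ∀ a : ZMod 2, a = 0 ∨ a = 1 := by decide
  let h' : V → V → ZMod 2 := fun u v => if u = a then g h a v else 0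
  have hd' : ∀ u, h' u u = 0 := by
    intro u
    simp only [h']
    split_ifs with hu
    · rw [hu]; exact g_self h a
    · rfl
  have hg : ∀ u v, g h u v = g h' u v := by
    intro u v
    show g h u v = (if u = a then g h a v else 0) + (if v = a then g h a u else 0)
    by_cases hu : u = a
    · by_cases hv : v = a
      · rw [if_pos hu, if_pos hv, hu, hv, g_self, zero_add]
      · rw [if_pos hu, if_neg hv, hu, add_zero]
    · by_cases hv : v = a
      · rw [if_neg hu, if_pos hv, hv, zero_add, g_symm]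
      · rw [if_neg hu, if_neg hv, zero_add]
        rcases z2 (g h u v) with h0 | h1
        · exact h0
        · rcases ha u v h1 with h2 | h2
          · exact absurd h2 hu
          · exact absurd h2 hv
  have hstar : ∀ C : V → V → K4, (∀ u v, C u v = C v u) →
      ∑ u, ∑ v, h u v • C u v = ∑ v, g h a v • C a v := by
    intro C hC
    rw [change h h' hd hd' hg C hC]
    rw [Finset.sum_eq_single a]
    · simp [h']
    · intro b _ hb
      simp [h', hb]
    · intro hh; exact absurd (mem_univ _) hh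
  set N : Finset V := univ.filter (fun v => g h a v = 1) with hN
  have hNeven : ∃ k, N.card = 2 * k := by
    have h1 := hstar (fun _ _ => ((1, 0) : K4)) (fun _ _ => rfl)
    have h0 : ∑ u, ∑ v, h u v • ((1, 0) : K4) = 0 := by
      simp only [← Finset.sum_smul, hev, zero_smul]
    rw [h0, ← Finset.sum_smul] at h1
    have h2 : ∑ v, g h a v = (N.card : ZMod 2) := by
      have h0 : ∀ v, g h a v = if g h a v = 1 then 1 else 0 := by
        intro v
        generalize g h a v = b
        revert b; decide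
      rw [Finset.sum_congr rfl (fun v _ => h0 v), Finset.sum_boole]
    have h3 : ∑ v, g h a v = 0 := by
      generalize ∑ v, g h a v = b at h1
      revert b; decide
    rw [h3] at h2
    obtain ⟨k, hk⟩ := (ZMod.natCast_eq_zero_iff N.card 2).1 h2.symm
    exact ⟨k, hk⟩
  obtain ⟨k, hk⟩ := hNeven
  have haN : a ∉ N := by
    rw [hN, Finset.mem_filter]
    rintro ⟨-, h1⟩
    rw [g_self] at h1
    exact zero_ne_one h1
  have hXc : 0 < Fintype.card X := by omega
  obtain ⟨r⟩ : Nonempty X := Fintype.card_pos_iff.1 hXc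
  set Y : Finset X := univ.erase r with hY
  have hYc : Y.card + 1 = Fintype.card X := by
    rw [hY, Finset.card_erase_of_mem (mem_univ _), Finset.card_univ]; omega
  have hNV : N.card ≤ Fintype.card V := Finset.card_le_univ _
  obtain ⟨S, hSY, hSc, hS0⟩ := egz (fun y => c r y) k Y (by omega)
  have hrS : r ∉ S := fun hh => by simpa [hY] using hSY hh
  let aN : Fin (2 * k) → V := fun i => ((N.equivFinOfCardEq hk).symm i : V)
  let bS : Fin (2 * k) → X := fun i => ((S.equivFinOfCardEq hSc).symm i : X)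
  have haNi : Function.Injective aN := fun i j hij => by simpa [aN] using hij
  have hbSi : Function.Injective bS := fun i j hij => by simpa [bS] using hij
  obtain ⟨φ, hφ1, -⟩ := extend (Fin.cons a aN : Fin (2 * k + 1) → V)
    (Fin.cons_injective_iff.2 ⟨by
      rintro ⟨i, hi⟩
      exact haN (hi ▸ ((N.equivFinOfCardEq hk).symm i).2), haNi⟩)
    (Fin.cons r bS : Fin (2 * k + 1) → X)
    (Fin.cons_injective_iff.2 ⟨by
      rintro ⟨i, hi⟩
      exact hrS (hi ▸ ((S.equivFinOfCardEq hSc).symm i).2), hbSi⟩) univ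
    (fun _ => mem_univ _) (by rw [Finset.card_univ]; omega)
  refine ⟨φ, ?_⟩
  have e1 : Q h c φ = ∑ v, g h a v • c (φ a) (φ v) :=
    hstar (fun u v => c (φ u) (φ v)) (fun u v => hc _ _)
  have pa : φ a = r := hφ1 0
  have pN : ∀ i, φ (aN i) = bS i := fun i => by simpa using hφ1 i.succ
  rw [e1, pa]
  have h2 : ∑ v, g h a v • c r (φ v) = ∑ v ∈ N, c r (φ v) := by
    rw [hN, Finset.sum_filter]
    refine Finset.sum_congr rfl fun u _ => ?_
    generalize g h a u = p
    generalize c r (φ u) = q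
    revert p q; decide
  rw [h2, ← hS0]
  have h3 : ∑ u ∈ N, c r (φ u) = ∑ i : Fin (2 * k), c r (φ (aN i)) := by
    rw [← Finset.sum_coe_sort N (fun u => c r (φ u))]
    exact (Equiv.sum_comp (N.equivFinOfCardEq hk).symm (fun u : N => c r (φ u))).symm
  have h4 : ∑ y ∈ S, c r y = ∑ i : Fin (2 * k), c r (bS i) := by
    rw [← Finset.sum_coe_sort S (fun y => c r y)]
    exact (Equiv.sum_comp (S.equivFinOfCardEq hSc).symm (fun u : S => c r u)).symm
  rw [h3, h4]
  exact Finset.sum_congr rfl fun i _ => by rw [pN i]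

omit [Fintype X] [DecidableEq X] in
/-- a graph with no two disjoint edges and an even number of edges is a star -/
theorem exists_center (h : V → V → ZMod 2) (hd : ∀ u, h u u = 0) (hev : ∑ u, ∑ v, h u v = 0)
    (hne : Nonempty V)
    (hno : ∀ v1 v2 v3 v4 : V, v1 ≠ v3 → v1 ≠ v4 → v2 ≠ v3 → v2 ≠ v4 → g h v1 v2 = 1 →
      g h v3 v4 = 1 → False) :
    ∃ a, ∀ u v, g h u v = 1 → u = a ∨ v = a := by
  have z2 : ∀ a : ZMod 2, a = 0 ∨ a = 1 := by decide
  by_contra hcon
  push Not at hcon
  obtain ⟨v0⟩ := hne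
  obtain ⟨p, q, hpq, -, -⟩ := hcon v0
  obtain ⟨s, t, hst, hs, ht⟩ := hcon p
  obtain ⟨s', t', hst', hs', ht'⟩ := hcon q
  have npq : p ≠ q := by rintro rfl; rw [g_self] at hpq; exact zero_ne_one hpq
  -- the edge s t avoids p, hence contains q
  have h1 : ∃ s, g h q s = 1 ∧ s ≠ p ∧ s ≠ q := by
    by_cases e1 : s = q
    · refine ⟨t, e1 ▸ hst, ht, ?_⟩
      rintro rfl; rw [e1, g_self] at hst; exact zero_ne_one hst
    by_cases e2 : t = q
    · refine ⟨s, by rw [g_symm, ← e2]; exact hst, hs, e1⟩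
    exact (hno p q s t (Ne.symm hs) (Ne.symm ht) (Ne.symm e1) (Ne.symm e2) hpq hst).elim
  obtain ⟨s, hqs, nsp, nsq⟩ := h1
  have h2 : ∃ t, g h p t = 1 ∧ t ≠ q ∧ t ≠ p := by
    by_cases e1 : s' = p
    · refine ⟨t', e1 ▸ hst', ht', ?_⟩
      rintro rfl; rw [e1, g_self] at hst'; exact zero_ne_one hst'
    by_cases e2 : t' = p
    · refine ⟨s', by rw [g_symm, ← e2]; exact hst', hs', e1⟩
    exact (hno p q s' t' (Ne.symm e1) (Ne.symm e2) (Ne.symm hs') (Ne.symm ht') hpq hst').elim
  obtain ⟨t, hpt, ntq, ntp⟩ := h2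
  have hst2 : s = t := by
    by_contra hne
    exact hno q s p t npq.symm (Ne.symm ntq) nsp hne hqs hpt
  subst hst2
  -- all edges are inside the triangle
  have tri : ∀ u v, g h u v = 1 → (u = p ∧ v = q) ∨ (u = q ∧ v = p) ∨ (u = q ∧ v = s) ∨
      (u = s ∧ v = q) ∨ (u = s ∧ v = p) ∨ (u = p ∧ v = s) := by
    intro u v huv
    have nuv : u ≠ v := by rintro rfl; rw [g_self] at huv; exact zero_ne_one huv
    have m1 : u = p ∨ u = q ∨ v = p ∨ v = q := by
      by_contra hh
      push Not at hh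
      exact hno p q u v hh.1.symm hh.2.2.1.symm hh.2.1.symm hh.2.2.2.symm hpq huv
    have m2 : u = q ∨ u = s ∨ v = q ∨ v = s := by
      by_contra hh
      push Not at hh
      exact hno q s u v hh.1.symm hh.2.2.1.symm hh.2.1.symm hh.2.2.2.symm hqs huv
    have m3 : u = p ∨ u = s ∨ v = p ∨ v = s := by
      by_contra hh
      push Not at hh
      exact hno p s u v hh.1.symm hh.2.2.1.symm hh.2.1.symm hh.2.2.2.symm hpt huv
    rcases m1 with rfl | rfl | rfl | rfl
    · rcases m2 with e | e | e | e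
      · exact absurd e npq
      · exact absurd e.symm nsp
      · exact Or.inl ⟨rfl, e⟩
      · exact Or.inr (Or.inr (Or.inr (Or.inr (Or.inr ⟨rfl, e⟩))))
    · rcases m3 with e | e | e | e
      · exact absurd e.symm npq
      · exact absurd e.symm nsq
      · exact Or.inr (Or.inl ⟨rfl, e⟩)
      · exact Or.inr (Or.inr (Or.inl ⟨rfl, e⟩))
    · rcases m2 with e | e | e | e
      · exact Or.inr (Or.inl ⟨e, rfl⟩)
      · exact Or.inr (Or.inr (Or.inr (Or.inr (Or.inl ⟨e, rfl⟩))))
      · exact absurd e npq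
      · exact absurd e.symm nsp
    · rcases m3 with e | e | e | e
      · exact Or.inl ⟨e, rfl⟩
      · exact Or.inr (Or.inr (Or.inr (Or.inl ⟨e, rfl⟩)))
      · exact absurd e.symm npq
      · exact absurd e.symm nsq
  let h' : V → V → ZMod 2 := fun u v =>
    (if u = p ∧ v = q then 1 else 0) + (if u = q ∧ v = s then 1 else 0) +
      (if u = s ∧ v = p then 1 else 0)
  have hd' : ∀ u, h' u u = 0 := by
    intro u
    simp only [h']
    rw [if_neg (fun e => npq (e.1.symm.trans e.2)), if_neg (fun e => nsq (e.2.symm.trans e.1)),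
      if_neg (fun e => nsp (e.1.symm.trans e.2))]
    simp
  have hg : ∀ u v, g h u v = g h' u v := by
    intro u v
    rcases z2 (g h u v) with h0 | h1
    · rw [h0]
      have k1 : ¬ (u = p ∧ v = q) := by
        rintro ⟨rfl, rfl⟩; rw [hpq] at h0; exact one_ne_zero h0
      have k2 : ¬ (u = q ∧ v = s) := by
        rintro ⟨rfl, rfl⟩; rw [hqs] at h0; exact one_ne_zero h0
      have k3 : ¬ (u = s ∧ v = p) := by
        rintro ⟨rfl, rfl⟩; rw [g_symm, hpt] at h0; exact one_ne_zero h0
      have k4 : ¬ (v = p ∧ u = q) := by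
        rintro ⟨rfl, rfl⟩; rw [g_symm, hpq] at h0; exact one_ne_zero h0
      have k5 : ¬ (v = q ∧ u = s) := by
        rintro ⟨rfl, rfl⟩; rw [g_symm, hqs] at h0; exact one_ne_zero h0
      have k6 : ¬ (v = s ∧ u = p) := by
        rintro ⟨rfl, rfl⟩; rw [hpt] at h0; exact one_ne_zero h0
      simp only [g, h']
      rw [if_neg k1, if_neg k2, if_neg k3, if_neg k4, if_neg k5, if_neg k6]
      simp
    · rw [h1]
      rcases tri u v h1 with ⟨rfl, rfl⟩ | ⟨rfl, rfl⟩ | ⟨rfl, rfl⟩ | ⟨rfl, rfl⟩ | ⟨rfl, rfl⟩ |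
        ⟨rfl, rfl⟩ <;>
      simp [g, h', npq, npq.symm, nsp, nsp.symm, nsq, nsq.symm]
  have e := change h h' hd hd' hg (fun _ _ => ((1, 0) : K4)) (fun _ _ => rfl)
  have h0 : ∑ u, ∑ v, h u v • ((1, 0) : K4) = 0 := by
    simp only [← Finset.sum_smul, hev, zero_smul]
  rw [h0] at e
  have h3 : ∑ u, ∑ v, h' u v = 1 := by
    simp only [h', Finset.sum_add_distrib]
    have : ∀ a b : V, ∑ u, ∑ v, (if u = a ∧ v = b then (1 : ZMod 2) else 0) = 1 := by
      intro a b
      simp [ite_and]
    rw [this, this, this]; decide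
  have h4 : ∑ u, ∑ v, h' u v • ((1, 0) : K4) = (1, 0) := by
    simp only [← Finset.sum_smul, h3, one_smul]
  rw [h4] at e
  exact absurd e (by decide)

/-- the core theorem -/
theorem core (h : V → V → ZMod 2) (hd : ∀ u, h u u = 0) (hev : ∑ u, ∑ v, h u v = 0)
    (c : X → X → K4) (hc : ∀ x y, c x y = c y x)
    (I : Finset V) (hI : ∀ w ∈ I, ∀ v, g h w v = 0) (hI5 : 5 ≤ I.card)
    (hcard : Fintype.card V + 20500 ≤ Fintype.card X) :
    ∃ φ : V ↪ X, Q h c φ = 0 := by
  by_cases hE : ∃ v1 v2 v3 v4 : V, v1 ≠ v3 ∧ v1 ≠ v4 ∧ v2 ≠ v3 ∧ v2 ≠ v4 ∧ g h v1 v2 = 1 ∧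
      g h v3 v4 = 1
  · obtain ⟨v1, v2, v3, v4, n13, n14, n23, n24, e12, e34⟩ := hE
    exact core3 h hd hev c hc I hI hI5 n13 n14 n23 n24 e12 e34 hcard
  · push Not at hE
    have hne : Nonempty V := by
      have : I.Nonempty := by rw [← Finset.card_pos]; omega
      obtain ⟨w, -⟩ := this
      exact ⟨w⟩
    obtain ⟨a, ha⟩ := exists_center h hd hev hne
      (fun v1 v2 v3 v4 n13 n14 n23 n24 e12 e34 => hE v1 v2 v3 v4 n13 n14 n23 n24 e12 e34)
    exact star_case h hd hev c hc a ha (by omega)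

end

end Pool.Agent.H29.ZS
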